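import Pool.Agent.Helper59.SH.PD

/-!
# SH-14  Empty squares and aperiodicity

Proof. `exists_empty` (`l ≥ 1`; `l = 0` trivial). Suppose not. For `K ≥ 1` cut `[0, lK)²` into the `K²` squares of side `l`; each one contains
a cell with `v` or `h`, so the number of cells of `[0, lK)²` with `v` plus the number of those with `h` is at least `K²`. By the rules
`row` (for each of the `lK` rows) and `col` it is at most `2 l K φ(lK)`. So `K ≤ 2 l φ(lK)`, i.e.
`1/(2 l²) ≤ φ(lK)/(lK)` for all `K ≥ 1`, against `small`.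
`aperiodic`. Let `v = (v₁, v₂) ≠ 0` and `x (m + v) = x m` for all `m`. If `v₁ ≠ 0`: `M` from `pd_aperiodic v₁`, and
an empty square `[i₀, i₀ + l) × [j₀, j₀ + l)`, `l = M + |v₁| + |v₂| + 1`. Choose `j, j' = j + v₂` both in `[j₀, j₀ + l)` and the interval
of columns `[i₁, i₁ + M)` such that it and `[i₁ + v₁, i₁ + v₁ + M)` lie in `[i₀, i₀ + l)`. `rowWord` for the row `j₀` of the square gives `c`
with `a(i, j₀) = pd (i + c)`; by `rowConst` the same for all the rows of the square. So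
`pd (i + v₁ + c) = a(i + v₁, j + v₂) = a(i, j) = pd (i + c)` for `i ∈ [i₁, i₁ + M)`, contradiction. If `v₁ = 0`, `v₂ ≠ 0`: the same with
`b`, `colWord`, `colConst` (or apply the first case to `tr x`).
-/

set_option autoImplicit false

open Filter Topology

namespace Pool.Agent.Helper59.SH

private theorem card_cells {φ : ℕ → ℕ} (l K : ℕ)
    (w : ℤ × ℤ → Bool)
    (hrow : ∀ j : ℤ, ((Finset.range (l * K)).filter (fun s : ℕ => w ((s : ℤ), j) = true)).card
      ≤ φ (l * K)) :
    ((Finset.range (l * K) ×ˢ Finset.range (l * K)).filter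
      (fun m : ℕ × ℕ => w ((m.1 : ℤ), (m.2 : ℤ)) = true)).card ≤ (l * K) * φ (l * K) := by
  classical
  have h1 : ((Finset.range (l * K) ×ˢ Finset.range (l * K)).filter
      (fun m : ℕ × ℕ => w ((m.1 : ℤ), (m.2 : ℤ)) = true)) ⊆
      (Finset.range (l * K)).biUnion (fun j =>
        ((Finset.range (l * K)).filter (fun s : ℕ => w ((s : ℤ), (j : ℤ)) = true)).image
          (fun s => (s, j))) := by
    intro m hm
    rw [Finset.mem_filter, Finset.mem_product] at hm
    rw [Finset.mem_biUnion]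
    refine ⟨m.2, hm.1.2, ?_⟩
    rw [Finset.mem_image]
    exact ⟨m.1, Finset.mem_filter.2 ⟨hm.1.1, hm.2⟩, rfl⟩
  refine (Finset.card_le_card h1).trans ?_
  refine Finset.card_biUnion_le.trans ?_
  calc ∑ j ∈ Finset.range (l * K),
        (((Finset.range (l * K)).filter (fun s : ℕ => w ((s : ℤ), (j : ℤ)) = true)).image
          (fun s => (s, j))).card
      ≤ ∑ _j ∈ Finset.range (l * K), φ (l * K) :=
        Finset.sum_le_sum fun j _ => Finset.card_image_le.trans (hrow j)
    _ = (l * K) * φ (l * K) := by rw [Finset.sum_const, Finset.card_range, smul_eq_mul]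

theorem exists_empty {f φ : ℕ → ℕ} (hφ : IsPhi f φ) {x : ℤ × ℤ → Letter} (hx : Rules φ x) (l : ℕ) :
    ∃ i₀ j₀ : ℤ, ∀ s t : ℕ, s < l → t < l →
      lv x (i₀ + s) (j₀ + t) = false ∧ lh x (i₀ + s) (j₀ + t) = false := by
  classical
  rcases Nat.eq_zero_or_pos l with rfl | hl
  · exact ⟨0, 0, fun s t hs => absurd hs (Nat.not_lt_zero s)⟩
  by_contra hcon
  push Not at hcon
  have hcell : ∀ i₀ j₀ : ℤ, ∃ s t : ℕ, s < l ∧ t < l ∧
      (lv x (i₀ + s) (j₀ + t) = true ∨ lh x (i₀ + s) (j₀ + t) = true) := by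
    intro i₀ j₀
    obtain ⟨s, t, hs, ht, h⟩ := hcon i₀ j₀
    refine ⟨s, t, hs, ht, ?_⟩
    by_cases h1 : lv x (i₀ + s) (j₀ + t) = true
    · exact Or.inl h1
    · right
      have h2 : lv x (i₀ + s) (j₀ + t) = false := by
        cases hh : lv x (i₀ + s) (j₀ + t)
        · rfl
        · exact absurd hh h1
      have h3 := h h2
      cases hh : lh x (i₀ + s) (j₀ + t)
      · exact absurd hh h3
      · rfl
  choose S T hS hT hST using hcell
  -- the main inequality
  have hmain : ∀ K : ℕ, 1 ≤ K → K ≤ 2 * l * φ (l * K) := by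
    intro K hK
    set V := (Finset.range (l * K) ×ˢ Finset.range (l * K)).filter
      (fun m : ℕ × ℕ => (fun p : ℤ × ℤ => lv x p.1 p.2) ((m.1 : ℤ), (m.2 : ℤ)) = true) with hV
    set H := (Finset.range (l * K) ×ˢ Finset.range (l * K)).filter
      (fun m : ℕ × ℕ => (fun p : ℤ × ℤ => lh x p.1 p.2) ((m.1 : ℤ), (m.2 : ℤ)) = true) with hH
    have hVc : V.card ≤ (l * K) * φ (l * K) := by
      refine card_cells (φ := φ) l K (fun p : ℤ × ℤ => lv x p.1 p.2) ?_
      intro j
      have := hx.row 0 j (l * K)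
      simpa using this
    have hHc : H.card ≤ (l * K) * φ (l * K) := by
      have h0 := card_cells (φ := φ) l K (fun p : ℤ × ℤ => lh x p.2 p.1) ?_
      · refine le_trans (le_of_eq ?_) h0
        refine Finset.card_bij (fun m _ => (m.2, m.1)) ?_ ?_ ?_
        · intro m hm
          rw [hH, Finset.mem_filter, Finset.mem_product] at hm
          rw [Finset.mem_filter, Finset.mem_product]
          exact ⟨⟨hm.1.2, hm.1.1⟩, hm.2⟩
        · intro a _ b _ hab
          have h1 := congrArg Prod.fst hab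
          have h2 := congrArg Prod.snd hab
          exact Prod.ext h2 h1
        · intro m hm
          rw [Finset.mem_filter, Finset.mem_product] at hm
          refine ⟨(m.2, m.1), ?_, rfl⟩
          rw [hH, Finset.mem_filter, Finset.mem_product]
          exact ⟨⟨hm.1.2, hm.1.1⟩, hm.2⟩
      · intro j
        have := hx.col j 0 (l * K)
        simpa using this
    -- the injection
    have hinj : (Finset.range K ×ˢ Finset.range K).card ≤ (V ∪ H).card := by
      refine Finset.card_le_card_of_injOn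
        (fun m : ℕ × ℕ => (l * m.1 + S ((l * m.1 : ℕ) : ℤ) ((l * m.2 : ℕ) : ℤ),
          l * m.2 + T ((l * m.1 : ℕ) : ℤ) ((l * m.2 : ℕ) : ℤ))) ?_ ?_
      · intro m hm
        have hm' : m.1 < K ∧ m.2 < K := by
          have := Finset.mem_coe.1 hm
          rw [Finset.mem_product, Finset.mem_range, Finset.mem_range] at this
          exact this
        have hs := hS ((l * m.1 : ℕ) : ℤ) ((l * m.2 : ℕ) : ℤ)
        have ht := hT ((l * m.1 : ℕ) : ℤ) ((l * m.2 : ℕ) : ℤ)
        have hst := hST ((l * m.1 : ℕ) : ℤ) ((l * m.2 : ℕ) : ℤ)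
        set s := S ((l * m.1 : ℕ) : ℤ) ((l * m.2 : ℕ) : ℤ) with hsd
        set t := T ((l * m.1 : ℕ) : ℤ) ((l * m.2 : ℕ) : ℤ) with htd
        have hb1 : l * m.1 + s < l * K := by
          calc l * m.1 + s < l * m.1 + l := by omega
            _ = l * (m.1 + 1) := by ring
            _ ≤ l * K := Nat.mul_le_mul_left l hm'.1
        have hb2 : l * m.2 + t < l * K := by
          calc l * m.2 + t < l * m.2 + l := by omega
            _ = l * (m.2 + 1) := by ring
            _ ≤ l * K := Nat.mul_le_mul_left l hm'.2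
        rw [Finset.mem_coe, Finset.mem_union]
        rcases hst with h | h
        · left
          rw [hV, Finset.mem_filter, Finset.mem_product, Finset.mem_range, Finset.mem_range]
          refine ⟨⟨hb1, hb2⟩, ?_⟩
          push_cast
          push_cast at h
          exact h
        · right
          rw [hH, Finset.mem_filter, Finset.mem_product, Finset.mem_range, Finset.mem_range]
          refine ⟨⟨hb1, hb2⟩, ?_⟩
          push_cast
          push_cast at h
          exact h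
      · intro m _ m' _ h
        have h1 : l * m.1 + S ((l * m.1 : ℕ) : ℤ) ((l * m.2 : ℕ) : ℤ) =
            l * m'.1 + S ((l * m'.1 : ℕ) : ℤ) ((l * m'.2 : ℕ) : ℤ) := congrArg Prod.fst h
        have h2 : l * m.2 + T ((l * m.1 : ℕ) : ℤ) ((l * m.2 : ℕ) : ℤ) =
            l * m'.2 + T ((l * m'.1 : ℕ) : ℤ) ((l * m'.2 : ℕ) : ℤ) := congrArg Prod.snd h
        have e1 : m.1 = m'.1 := by
          have a1 : (l * m.1 + S ((l * m.1 : ℕ) : ℤ) ((l * m.2 : ℕ) : ℤ)) / l = m.1 := by
            rw [Nat.mul_add_div hl, Nat.div_eq_of_lt (hS _ _), add_zero]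
          have a2 : (l * m'.1 + S ((l * m'.1 : ℕ) : ℤ) ((l * m'.2 : ℕ) : ℤ)) / l = m'.1 := by
            rw [Nat.mul_add_div hl, Nat.div_eq_of_lt (hS _ _), add_zero]
          rw [← a1, h1, a2]
        have e2 : m.2 = m'.2 := by
          have a1 : (l * m.2 + T ((l * m.1 : ℕ) : ℤ) ((l * m.2 : ℕ) : ℤ)) / l = m.2 := by
            rw [Nat.mul_add_div hl, Nat.div_eq_of_lt (hT _ _), add_zero]
          have a2 : (l * m'.2 + T ((l * m'.1 : ℕ) : ℤ) ((l * m'.2 : ℕ) : ℤ)) / l = m'.2 := by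
            rw [Nat.mul_add_div hl, Nat.div_eq_of_lt (hT _ _), add_zero]
          rw [← a1, h2, a2]
        exact Prod.ext e1 e2
    rw [Finset.card_product, Finset.card_range] at hinj
    have h3 : K * K ≤ K * (2 * l * φ (l * K)) := by
      calc K * K ≤ (V ∪ H).card := hinj
        _ ≤ V.card + H.card := Finset.card_union_le _ _
        _ ≤ (l * K) * φ (l * K) + (l * K) * φ (l * K) := Nat.add_le_add hVc hHc
        _ = K * (2 * l * φ (l * K)) := by ring
    exact Nat.le_of_mul_le_mul_left h3 hK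
  -- contradiction with smallness
  have hlR : (0 : ℝ) < l := by exact_mod_cast hl
  have hev := hφ.small.eventually (gt_mem_nhds (show (0 : ℝ) < 1 / (2 * (l : ℝ) ^ 2) by positivity))
  obtain ⟨m₀, hm₀⟩ := Filter.eventually_atTop.1 hev
  have hK : 1 ≤ m₀ + 1 := by omega
  have h4 := hmain (m₀ + 1) hK
  have h5 := hm₀ (l * (m₀ + 1)) (by nlinarith)
  have hKR : (0 : ℝ) < ((m₀ + 1 : ℕ) : ℝ) := by positivity
  have h6 : ((m₀ + 1 : ℕ) : ℝ) ≤ 2 * l * (φ (l * (m₀ + 1)) : ℝ) := by exact_mod_cast h4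
  have h7 : (φ (l * (m₀ + 1)) : ℝ) < 1 / (2 * (l : ℝ) ^ 2) * (((l * (m₀ + 1) : ℕ)) : ℝ) := by
    have hpos : (0 : ℝ) < (((l * (m₀ + 1) : ℕ)) : ℝ) := by
      rw [Nat.cast_mul]
      positivity
    exact (div_lt_iff₀ hpos).1 h5
  rw [Nat.cast_mul] at h7
  have h8 : 2 * l * (φ (l * (m₀ + 1)) : ℝ) <
      2 * l * (1 / (2 * (l : ℝ) ^ 2) * ((l : ℝ) * ((m₀ + 1 : ℕ) : ℝ))) :=
    mul_lt_mul_of_pos_left h7 (by positivity)
  have h9 : 2 * l * (1 / (2 * (l : ℝ) ^ 2) * ((l : ℝ) * ((m₀ + 1 : ℕ) : ℝ))) =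
      ((m₀ + 1 : ℕ) : ℝ) := by
    field_simp
  rw [h9] at h8
  exact absurd h6 (not_le.2 h8)

private theorem aper_aux {f φ : ℕ → ℕ} (hφ : IsPhi f φ) {x : ℤ × ℤ → Letter} (hx : Rules φ x)
    (v₁ v₂ : ℤ) (h1 : v₁ ≠ 0) (hper : ∀ i j : ℤ, x (i + v₁, j + v₂) = x (i, j)) : False := by
  obtain ⟨M, hM⟩ := pd_aperiodic v₁ h1
  obtain ⟨i₀, j₀, hE⟩ := exists_empty hφ hx (M + v₁.natAbs + v₂.natAbs + 1)
  set l := M + v₁.natAbs + v₂.natAbs + 1 with hl
  obtain ⟨c, hc⟩ := hx.rowWord i₀ j₀ l (fun s _ hs => by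
    have := (hE s 0 hs (by omega)).1
    simpa using this)
  have hrow : ∀ t : ℕ, t < l → ∀ s : ℕ, s < l → la x (i₀ + s) (j₀ + t) = pd (i₀ + s + c) := by
    intro t
    induction t with
    | zero =>
      intro _ s hs
      rw [Nat.cast_zero, add_zero]
      exact hc s hs
    | succ t ih =>
      intro ht s hs
      rw [hx.rowConst _ _ (hE s (t + 1) hs ht).2]
      have e : j₀ + ((t + 1 : ℕ) : ℤ) - 1 = j₀ + t := by push_cast; ring
      rw [e]
      exact ih (by omega) s hs
  -- offsets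
  obtain ⟨s, hs, hne⟩ := hM (i₀ + ((-v₁).toNat : ℤ) + c)
  apply hne
  have hA := hrow (-v₂).toNat (by omega) ((-v₁).toNat + s) (by omega)
  have hB := hrow ((-v₂).toNat + v₂).toNat (by omega) ((-v₁).toNat + s + v₁).toNat (by omega)
  have e1 : (((-v₁).toNat + s + v₁).toNat : ℤ) = ((-v₁).toNat : ℤ) + s + v₁ := by omega
  have e2 : (((-v₂).toNat + v₂).toNat : ℤ) = ((-v₂).toNat : ℤ) + v₂ := by omega
  rw [e1, e2] at hB
  have hC : la x (i₀ + (((-v₁).toNat : ℤ) + s + v₁)) (j₀ + (((-v₂).toNat : ℤ) + v₂)) =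
      la x (i₀ + (((-v₁).toNat : ℤ) + s)) (j₀ + ((-v₂).toNat : ℤ)) := by
    have := hper (i₀ + (((-v₁).toNat : ℤ) + s)) (j₀ + ((-v₂).toNat : ℤ))
    unfold la
    rw [← this]
    congr 3 <;> ring
  rw [hC] at hB
  push_cast at hA
  rw [hA] at hB
  have e3 : i₀ + ((-v₁).toNat : ℤ) + c + s = i₀ + (((-v₁).toNat : ℤ) + s) + c := by ring
  have e4 : i₀ + ((-v₁).toNat : ℤ) + c + s + v₁ = i₀ + (((-v₁).toNat : ℤ) + s + v₁) + c := by
    ring
  rw [e4, e3]
  simpa using hB

private theorem rules_tr_aux {φ : ℕ → ℕ} {x : ℤ × ℤ → Letter} (hx : Rules φ x) :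
    Rules φ (tr x) where
  row := fun i j l => hx.col j i l
  col := fun i j l => hx.row j i l
  rowWord := fun i j l h => hx.colWord j i l h
  colWord := fun i j l h => hx.rowWord j i l h
  rowConst := fun i j h => hx.colConst j i h
  colConst := fun i j h => hx.rowConst j i h
  junction := fun i j => by
    rcases hx.junction j i with h | h | h
    · exact Or.inr (Or.inl h)
    · exact Or.inl h
    · exact Or.inr (Or.inr ⟨h.2.2.1, h.2.2.2, h.1, h.2.1⟩)

theorem aperiodic {f φ : ℕ → ℕ} (hφ : IsPhi f φ) {x : ℤ × ℤ → Letter} (hx : Rules φ x)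
    (v : ℤ × ℤ) (hv : v ≠ 0) : Helper60.BlockGluing.shift v x ≠ x := by
  intro hsh
  have hper : ∀ i j : ℤ, x (i + v.1, j + v.2) = x (i, j) := fun i j => congrFun hsh (i, j)
  by_cases h1 : v.1 = 0
  · have h2 : v.2 ≠ 0 := by
      intro h2
      exact hv (Prod.ext h1 h2)
    refine aper_aux hφ (rules_tr_aux hx) v.2 v.1 h2 ?_
    intro i j
    unfold tr
    rw [hper j i]
  · exact aper_aux hφ hx v.1 v.2 h1 hper

end Pool.Agent.Helper59.SH
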