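import Pool.Agent.Helper59.SH.Defs

/-!
# SH-15  Small subsets

Proof. `(1 + d)^N = ∑ k, C(N,k) d^k ≥ ∑_{k ≤ K} C(N,k) d^k ≥ d^K ∑_{k ≤ K} C(N,k)` for `0 < d ≤ 1` (`add_pow`; `C(N,k) = 0` for `k > N`).
`subsets_card`: the number of subsets with at most `K` elements of a finite set with `N` elements (`Finset.card_powersetCard`,
disjoint union over the cardinality).
-/

set_option autoImplicit false

open Filter Topology

namespace Pool.Agent.Helper59.SH

theorem sum_choose_le (N K : ℕ) (d : ℝ) (hd : 0 < d) (hd1 : d ≤ 1) :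
    (∑ k ∈ Finset.range (K + 1), (N.choose k : ℝ)) ≤ (1 + d) ^ N / d ^ K := by
  rw [le_div_iff₀ (pow_pos hd K), Finset.sum_mul]
  have h1 : (1 + d) ^ N = ∑ k ∈ Finset.range (N + 1), (N.choose k : ℝ) * d ^ k := by
    rw [add_comm, add_pow]
    refine Finset.sum_congr rfl fun k _ => ?_
    rw [one_pow, mul_one, mul_comm]
  have hnn : ∀ k, 0 ≤ (N.choose k : ℝ) * d ^ k := fun k => by positivity
  have h2 : ∑ k ∈ Finset.range (K + 1), (N.choose k : ℝ) * d ^ k ≤
      ∑ k ∈ Finset.range (N + 1), (N.choose k : ℝ) * d ^ k := by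
    have h3 : ∑ k ∈ Finset.range (K + 1), (N.choose k : ℝ) * d ^ k ≤
        ∑ k ∈ Finset.range (N + 1 + (K + 1)), (N.choose k : ℝ) * d ^ k :=
      Finset.sum_le_sum_of_subset_of_nonneg (Finset.range_subset_range.2 (by omega))
        (fun k _ _ => hnn k)
    refine h3.trans (le_of_eq ?_)
    symm
    refine Finset.sum_subset (Finset.range_subset_range.2 (by omega)) fun k _ hk => ?_
    rw [Finset.mem_range, not_lt] at hk
    rw [Nat.choose_eq_zero_of_lt (by omega), Nat.cast_zero, zero_mul]
  rw [h1]
  refine le_trans (Finset.sum_le_sum fun k hk => ?_) h2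
  rw [Finset.mem_range] at hk
  exact mul_le_mul_of_nonneg_left (pow_le_pow_of_le_one hd.le hd1 (by omega)) (Nat.cast_nonneg _)

theorem subsets_card {α : Type} [Fintype α] [DecidableEq α] (K : ℕ) :
    ((Finset.univ : Finset (Finset α)).filter (fun s => s.card ≤ K)).card =
      ∑ k ∈ Finset.range (K + 1), (Fintype.card α).choose k := by
  rw [Finset.card_eq_sum_card_fiberwise (f := fun s : Finset α => s.card)
    (t := Finset.range (K + 1))]
  · refine Finset.sum_congr rfl fun k hk => ?_
    rw [Finset.mem_range] at hk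
    have e : (((Finset.univ : Finset (Finset α)).filter (fun s => s.card ≤ K)).filter
        (fun s => s.card = k)) = Finset.powersetCard k Finset.univ := by
      ext s
      rw [Finset.mem_filter, Finset.mem_filter, Finset.mem_powersetCard]
      constructor
      · rintro ⟨-, h⟩
        exact ⟨Finset.subset_univ _, h⟩
      · rintro ⟨-, h⟩
        exact ⟨⟨Finset.mem_univ _, by omega⟩, h⟩
    rw [e, Finset.card_powersetCard, Finset.card_univ]
  · intro s hs
    rw [Finset.mem_coe, Finset.mem_filter] at hs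
    rw [Finset.mem_coe, Finset.mem_range]
    exact Nat.lt_succ_of_le hs.2

end Pool.Agent.Helper59.SH
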