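import Pool.Agent.Helper59.SH.Binom

/-!
# SH-16  The number of patterns

Proof. For a pattern `p = block n x`, `x ∈ XX φ`, let `V`, `H` be the sets of cells (`Fin n × Fin n`) with `v`, resp. `h`; by `row`, `col`
(intervals `[0, n)`, `n` of them) they have at most `n φ(n)` elements. Let `A` be the set of the cells `m` with `a = true` in the lowest row
or in `H`, and `B` the set of the cells with `b = true` in the first column or in `V`. `p` is determined by
`(V, H, A, B)`: `a` is known in the lowest row, and if it is known at `(i, j-1)` then it is known at `(i, j)`: if `(i, j) ∉ H` it is the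
same (`rowConst`), else it is true iff `(i, j) ∈ A`. The same for `b` with `colConst`. The number of `V` (and of `H`) is at most
`∑_{k ≤ n φ n} C(n², k)` (`subsets_card`), and for given `V`, `H` there are at most `2^(n + n φ n)` sets `A ⊆ row ∪ H` and
as many `B`. So the image is contained in a finite set (a sigma/biUnion) of the stated cardinality.
-/

set_option autoImplicit false

open Filter Topology

namespace Pool.Agent.Helper59.SH

private theorem cnt_row (φ : ℕ → ℕ) (n : ℕ) (x : ℤ × ℤ → Letter) (hx : Rules φ x) :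
    ((Finset.univ : Finset (Fin n × Fin n)).filter
      (fun m => (Helper60.BlockGluing.block n x m).2.2.1 = true)).card ≤ n * φ n := by
  classical
  rw [Finset.card_eq_sum_card_fiberwise (f := fun m : Fin n × Fin n => m.2) (t := Finset.univ)
    (fun m _ => Finset.mem_coe.2 (Finset.mem_univ _))]
  have h1 : ∀ j ∈ (Finset.univ : Finset (Fin n)),
      (((Finset.univ : Finset (Fin n × Fin n)).filter
        (fun m => (Helper60.BlockGluing.block n x m).2.2.1 = true)).filter
          (fun m => m.2 = j)).card ≤ φ n := by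
    intro j _
    refine le_trans ?_ (hx.row 0 ((j : ℕ) : ℤ) n)
    apply Finset.card_le_card_of_injOn (fun m => (m.1 : ℕ))
    · intro m hm
      rw [Finset.mem_coe, Finset.mem_filter, Finset.mem_filter] at hm
      rw [Finset.mem_coe, Finset.mem_filter, Finset.mem_range]
      refine ⟨m.1.2, ?_⟩
      have h2 := hm.1.2
      unfold Helper60.BlockGluing.block at h2
      unfold lv
      rw [hm.2] at h2
      rw [zero_add]
      exact h2
    · intro m hm m' hm' h
      rw [Finset.mem_coe, Finset.mem_filter] at hm hm'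
      exact Prod.ext (Fin.ext h) (hm.2.trans hm'.2.symm)
  refine (Finset.sum_le_sum h1).trans (le_of_eq ?_)
  simp

private theorem cnt_col (φ : ℕ → ℕ) (n : ℕ) (x : ℤ × ℤ → Letter) (hx : Rules φ x) :
    ((Finset.univ : Finset (Fin n × Fin n)).filter
      (fun m => (Helper60.BlockGluing.block n x m).2.2.2 = true)).card ≤ n * φ n := by
  classical
  rw [Finset.card_eq_sum_card_fiberwise (f := fun m : Fin n × Fin n => m.1) (t := Finset.univ)
    (fun m _ => Finset.mem_coe.2 (Finset.mem_univ _))]
  have h1 : ∀ j ∈ (Finset.univ : Finset (Fin n)),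
      (((Finset.univ : Finset (Fin n × Fin n)).filter
        (fun m => (Helper60.BlockGluing.block n x m).2.2.2 = true)).filter
          (fun m => m.1 = j)).card ≤ φ n := by
    intro j _
    refine le_trans ?_ (hx.col ((j : ℕ) : ℤ) 0 n)
    apply Finset.card_le_card_of_injOn (fun m => (m.2 : ℕ))
    · intro m hm
      rw [Finset.mem_coe, Finset.mem_filter, Finset.mem_filter] at hm
      rw [Finset.mem_coe, Finset.mem_filter, Finset.mem_range]
      refine ⟨m.2.2, ?_⟩
      have h2 := hm.1.2
      unfold Helper60.BlockGluing.block at h2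
      unfold lh
      rw [hm.2] at h2
      rw [zero_add]
      exact h2
    · intro m hm m' hm' h
      rw [Finset.mem_coe, Finset.mem_filter] at hm hm'
      exact Prod.ext (hm.2.trans hm'.2.symm) (Fin.ext h)
  refine (Finset.sum_le_sum h1).trans (le_of_eq ?_)
  simp

/-- vertical walls -/
private def cV (n : ℕ) (p : Fin n × Fin n → Letter) : Finset (Fin n × Fin n) :=
  Finset.univ.filter fun m => (p m).2.2.1 = true

/-- horizontal walls -/
private def cH (n : ℕ) (p : Fin n × Fin n → Letter) : Finset (Fin n × Fin n) :=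
  Finset.univ.filter fun m => (p m).2.2.2 = true

/-- lowest row -/
private def r0 (n : ℕ) : Finset (Fin n × Fin n) := Finset.univ.filter fun m => (m.2 : ℕ) = 0

/-- first column -/
private def k0 (n : ℕ) : Finset (Fin n × Fin n) := Finset.univ.filter fun m => (m.1 : ℕ) = 0

private def cA (n : ℕ) (p : Fin n × Fin n → Letter) : Finset (Fin n × Fin n) :=
  (r0 n ∪ cH n p).filter fun m => (p m).1 = true

private def cB (n : ℕ) (p : Fin n × Fin n → Letter) : Finset (Fin n × Fin n) :=
  (k0 n ∪ cV n p).filter fun m => (p m).2.1 = true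

private theorem r0_card (n : ℕ) : (r0 n).card ≤ n := by
  have : (r0 n).card ≤ (Finset.univ : Finset (Fin n)).card := by
    apply Finset.card_le_card_of_injOn (fun m => m.1) (fun m _ => Finset.mem_coe.2 (Finset.mem_univ _))
    intro m hm m' hm' h
    rw [Finset.mem_coe, r0, Finset.mem_filter] at hm hm'
    exact Prod.ext h (Fin.ext (hm.2.trans hm'.2.symm))
  simpa using this

private theorem k0_card (n : ℕ) : (k0 n).card ≤ n := by
  have : (k0 n).card ≤ (Finset.univ : Finset (Fin n)).card := by
    apply Finset.card_le_card_of_injOn (fun m => m.2) (fun m _ => Finset.mem_coe.2 (Finset.mem_univ _))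
    intro m hm m' hm' h
    rw [Finset.mem_coe, k0, Finset.mem_filter] at hm hm'
    exact Prod.ext (Fin.ext (hm.2.trans hm'.2.symm)) h
  simpa using this

private theorem cnt_inj (φ : ℕ → ℕ) (n : ℕ) (p q : Fin n × Fin n → Letter)
    (hp : p ∈ Helper60.BlockGluing.lang (XX φ) n) (hq : q ∈ Helper60.BlockGluing.lang (XX φ) n)
    (h1 : cV n p = cV n q) (h2 : cH n p = cH n q) (h3 : cA n p = cA n q) (h4 : cB n p = cB n q) :
    p = q := by
  have hv : ∀ m, (p m).2.2.1 = (q m).2.2.1 := by
    intro m
    have : m ∈ cV n p ↔ m ∈ cV n q := by rw [h1]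
    simp only [cV, Finset.mem_filter, Finset.mem_univ, true_and] at this
    exact Bool.eq_iff_iff.2 this
  have hh : ∀ m, (p m).2.2.2 = (q m).2.2.2 := by
    intro m
    have : m ∈ cH n p ↔ m ∈ cH n q := by rw [h2]
    simp only [cH, Finset.mem_filter, Finset.mem_univ, true_and] at this
    exact Bool.eq_iff_iff.2 this
  have hA : ∀ m, ((m.2 : ℕ) = 0 ∨ (p m).2.2.2 = true) → (p m).1 = (q m).1 := by
    intro m hm
    have : m ∈ cA n p ↔ m ∈ cA n q := by rw [h3]
    simp only [cA, r0, cH, Finset.mem_filter, Finset.mem_union, Finset.mem_univ, true_and,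
      ← hh] at this
    exact Bool.eq_iff_iff.2 ⟨fun h => (this.1 ⟨hm, h⟩).2, fun h => (this.2 ⟨hm, h⟩).2⟩
  have hB : ∀ m, ((m.1 : ℕ) = 0 ∨ (p m).2.2.1 = true) → (p m).2.1 = (q m).2.1 := by
    intro m hm
    have : m ∈ cB n p ↔ m ∈ cB n q := by rw [h4]
    simp only [cB, k0, cV, Finset.mem_filter, Finset.mem_union, Finset.mem_univ, true_and,
      ← hv] at this
    exact Bool.eq_iff_iff.2 ⟨fun h => (this.1 ⟨hm, h⟩).2, fun h => (this.2 ⟨hm, h⟩).2⟩
  obtain ⟨x, hx, rfl⟩ := hp
  obtain ⟨y, hy, rfl⟩ := hq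
  have ha : ∀ (j i : ℕ) (hj : j < n) (hi : i < n),
      (Helper60.BlockGluing.block n x (⟨i, hi⟩, ⟨j, hj⟩)).1 =
        (Helper60.BlockGluing.block n y (⟨i, hi⟩, ⟨j, hj⟩)).1 := by
    intro j
    induction j with
    | zero => exact fun i hj hi => hA _ (Or.inl rfl)
    | succ j ih =>
      intro i hj hi
      by_cases hw : (Helper60.BlockGluing.block n x (⟨i, hi⟩, ⟨j + 1, hj⟩)).2.2.2 = true
      · exact hA _ (Or.inr hw)
      · have e1 := hx.rowConst (i : ℤ) ((j + 1 : ℕ) : ℤ) (by
          rw [Bool.not_eq_true] at hw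
          exact hw)
        have hw' := hw
        rw [hh] at hw'
        have e2 := hy.rowConst (i : ℤ) ((j + 1 : ℕ) : ℤ) (by
          rw [Bool.not_eq_true] at hw'
          exact hw')
        have e3 := ih i (by omega) hi
        have e4 : (((j + 1 : ℕ) : ℤ) - 1) = ((j : ℕ) : ℤ) := by push_cast; ring
        rw [e4] at e1 e2
        show la x (i : ℤ) ((j + 1 : ℕ) : ℤ) = la y (i : ℤ) ((j + 1 : ℕ) : ℤ)
        rw [e1, e2]
        exact e3
  have hb : ∀ (i j : ℕ) (hj : j < n) (hi : i < n),
      (Helper60.BlockGluing.block n x (⟨i, hi⟩, ⟨j, hj⟩)).2.1 =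
        (Helper60.BlockGluing.block n y (⟨i, hi⟩, ⟨j, hj⟩)).2.1 := by
    intro i
    induction i with
    | zero => exact fun j hj hi => hB _ (Or.inl rfl)
    | succ i ih =>
      intro j hj hi
      by_cases hw : (Helper60.BlockGluing.block n x (⟨i + 1, hi⟩, ⟨j, hj⟩)).2.2.1 = true
      · exact hB _ (Or.inr hw)
      · have e1 := hx.colConst ((i + 1 : ℕ) : ℤ) (j : ℤ) (by
          rw [Bool.not_eq_true] at hw
          exact hw)
        have hw' := hw
        rw [hv] at hw'
        have e2 := hy.colConst ((i + 1 : ℕ) : ℤ) (j : ℤ) (by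
          rw [Bool.not_eq_true] at hw'
          exact hw')
        have e3 := ih j hj (by omega)
        have e4 : (((i + 1 : ℕ) : ℤ) - 1) = ((i : ℕ) : ℤ) := by push_cast; ring
        rw [e4] at e1 e2
        show lb x ((i + 1 : ℕ) : ℤ) (j : ℤ) = lb y ((i + 1 : ℕ) : ℤ) (j : ℤ)
        rw [e1, e2]
        exact e3
  funext m
  obtain ⟨⟨i, hi⟩, ⟨j, hj⟩⟩ := m
  exact Prod.ext (ha j i hj hi) (Prod.ext (hb i j hj hi) (Prod.ext (hv _) (hh _)))

theorem card_lang_le (φ : ℕ → ℕ) (n : ℕ) :
    Nat.card (Helper60.BlockGluing.lang (XX φ) n) ≤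
      (∑ k ∈ Finset.range (n * φ n + 1), (n ^ 2).choose k) ^ 2 * 2 ^ (2 * (n + n * φ n)) := by
  classical
  set FS : Finset (Finset (Fin n × Fin n)) := Finset.univ.filter (fun s => s.card ≤ n * φ n) with hFS
  have hFSc : FS.card = ∑ k ∈ Finset.range (n * φ n + 1), (n ^ 2).choose k := by
    rw [hFS, subsets_card]
    simp [sq]
  set U : Finset ((Finset (Fin n × Fin n) × Finset (Fin n × Fin n)) ×
      (Finset (Fin n × Fin n) × Finset (Fin n × Fin n))) :=
    (FS ×ˢ FS).biUnion fun w => {w} ×ˢ ((r0 n ∪ w.2).powerset ×ˢ (k0 n ∪ w.1).powerset) with hU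
  have hUc : U.card ≤ (∑ k ∈ Finset.range (n * φ n + 1), (n ^ 2).choose k) ^ 2 *
      2 ^ (2 * (n + n * φ n)) := by
    have h1 : ∀ w ∈ FS ×ˢ FS, (({w} : Finset (Finset (Fin n × Fin n) × Finset (Fin n × Fin n))) ×ˢ
        ((r0 n ∪ w.2).powerset ×ˢ (k0 n ∪ w.1).powerset)).card ≤ 2 ^ (2 * (n + n * φ n)) := by
      intro w hw
      rw [Finset.mem_product, hFS, Finset.mem_filter, Finset.mem_filter] at hw
      rw [Finset.card_product, Finset.card_product, Finset.card_singleton, one_mul,
        Finset.card_powerset, Finset.card_powerset, ← pow_add]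
      apply Nat.pow_le_pow_right (by norm_num)
      have h2 := Finset.card_union_le (r0 n) w.2
      have h3 := Finset.card_union_le (k0 n) w.1
      have h4 := r0_card n
      have h5 := k0_card n
      have h6 := hw.1.2
      have h7 := hw.2.2
      omega
    calc U.card ≤ ∑ w ∈ FS ×ˢ FS, _ := Finset.card_biUnion_le
      _ ≤ ∑ _w ∈ FS ×ˢ FS, 2 ^ (2 * (n + n * φ n)) := Finset.sum_le_sum h1
      _ = _ := by
        rw [Finset.sum_const, Finset.card_product, hFSc, smul_eq_mul]
        ring
  refine le_trans ?_ hUc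
  have hmem : ∀ p : Helper60.BlockGluing.lang (XX φ) n,
      ((cV n p.1, cH n p.1), (cA n p.1, cB n p.1)) ∈ U := by
    rintro ⟨p, x, hx, rfl⟩
    rw [hU, Finset.mem_biUnion]
    refine ⟨(cV n (Helper60.BlockGluing.block n x), cH n (Helper60.BlockGluing.block n x)), ?_, ?_⟩
    · rw [Finset.mem_product, hFS, Finset.mem_filter, Finset.mem_filter]
      exact ⟨⟨Finset.mem_univ _, cnt_row φ n x hx⟩, ⟨Finset.mem_univ _, cnt_col φ n x hx⟩⟩
    · rw [Finset.mem_product, Finset.mem_product, Finset.mem_singleton, Finset.mem_powerset,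
        Finset.mem_powerset]
      exact ⟨rfl, Finset.filter_subset _ _, Finset.filter_subset _ _⟩
  have hinj : Function.Injective (fun p : Helper60.BlockGluing.lang (XX φ) n =>
      (⟨((cV n p.1, cH n p.1), (cA n p.1, cB n p.1)), hmem p⟩ : U)) := by
    intro p q h
    have h1 := congrArg Subtype.val h
    simp only [Prod.mk.injEq] at h1
    exact Subtype.ext (cnt_inj φ n p.1 q.1 p.2 q.2 h1.1.1 h1.1.2 h1.2.1 h1.2.2)
  have := Nat.card_le_card_of_injective _ hinj
  simpa using this

end Pool.Agent.Helper59.SH
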