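import Mathlib
import Pool.Agent.Helper60.BlockGluingDefs

/-!
# Project SH (MP_390418_an): definitions

The letters are quadruples `(a, b, v, h)` of Booleans; `v` at the cell `(i, j)` says that there is a
wall on its left edge, `h` that there is one on its lower edge.
-/

set_option autoImplicit false

open Filter Topology

namespace Pool.Agent.Helper59.SH

/-- The alphabet. -/
abbrev Letter : Type := Bool × Bool × Bool × Bool

/-- The first component of the letter at the cell `(i, j)`. -/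
def la (x : ℤ × ℤ → Letter) (i j : ℤ) : Bool := (x (i, j)).1

/-- The second component of the letter at the cell `(i, j)`. -/
def lb (x : ℤ × ℤ → Letter) (i j : ℤ) : Bool := (x (i, j)).2.1

/-- There is a wall on the left edge of the cell `(i, j)`. -/
def lv (x : ℤ × ℤ → Letter) (i j : ℤ) : Bool := (x (i, j)).2.2.1

/-- There is a wall on the lower edge of the cell `(i, j)`. -/
def lh (x : ℤ × ℤ → Letter) (i j : ℤ) : Bool := (x (i, j)).2.2.2

/-- The period doubling sequence: the parity of the 2-adic valuation. -/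
noncomputable def pd (i : ℤ) : Bool := decide (Odd (padicValInt 2 i))

/-- The rules of the subshift. -/
structure Rules (φ : ℕ → ℕ) (x : ℤ × ℤ → Letter) : Prop where
  /-- every interval of length `l` of a row meets at most `φ l` vertical walls -/
  row : ∀ (i j : ℤ) (l : ℕ), ((Finset.range l).filter (fun s : ℕ => lv x (i + s) j = true)).card ≤ φ l
  /-- every interval of length `l` of a column meets at most `φ l` horizontal walls -/
  col : ∀ (i j : ℤ) (l : ℕ), ((Finset.range l).filter (fun s : ℕ => lh x i (j + s) = true)).card ≤ φ l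
  /-- on an interval of a row without vertical walls inside, `a` is a factor of `pd` -/
  rowWord : ∀ (i j : ℤ) (l : ℕ), (∀ s : ℕ, 0 < s → s < l → lv x (i + s) j = false) →
    ∃ c : ℤ, ∀ s : ℕ, s < l → la x (i + s) j = pd (i + s + c)
  /-- on an interval of a column without horizontal walls inside, `b` is a factor of `pd` -/
  colWord : ∀ (i j : ℤ) (l : ℕ), (∀ s : ℕ, 0 < s → s < l → lh x i (j + s) = false) →
    ∃ c : ℤ, ∀ s : ℕ, s < l → lb x i (j + s) = pd (j + s + c)
  /-- `a` only changes vertically at a horizontal wall -/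
  rowConst : ∀ i j : ℤ, lh x i j = false → la x i j = la x i (j - 1)
  /-- `b` only changes horizontally at a vertical wall -/
  colConst : ∀ i j : ℤ, lv x i j = false → lb x i j = lb x (i - 1) j
  /-- walls meet in T-junctions or crossings only -/
  junction : ∀ i j : ℤ, (lv x i j = true ∧ lv x i (j - 1) = true) ∨
    (lh x i j = true ∧ lh x (i - 1) j = true) ∨
    (lv x i j = false ∧ lv x i (j - 1) = false ∧ lh x i j = false ∧ lh x (i - 1) j = false)

/-- The subshift. -/
def XX (φ : ℕ → ℕ) : Set (ℤ × ℤ → Letter) := {x | Rules φ x}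

/-- The transposition, which exchanges the two directions. -/
def tr (x : ℤ × ℤ → Letter) : ℤ × ℤ → Letter :=
  fun m => ((x (m.2, m.1)).2.1, (x (m.2, m.1)).1, (x (m.2, m.1)).2.2.2, (x (m.2, m.1)).2.2.1)

/-- The properties of the counting function `φ` which are needed for gluing at distance `f n`. -/
structure IsPhi (f φ : ℕ → ℕ) : Prop where
  zero : φ 0 = 0
  pos : ∀ l, 1 ≤ l → 1 ≤ φ l
  le : ∀ l, φ l ≤ l
  mono : Monotone φ
  right : ∀ n k s, f n ≤ k → s ≤ n → φ s + 1 ≤ φ (s + k / 2 + 1)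
  left : ∀ n k t, f n ≤ k → 1 ≤ t → t ≤ n → φ t + 1 ≤ φ (t + (k - k / 2))
  both : ∀ n k s t, f n ≤ k → 1 ≤ s → s ≤ n → 1 ≤ t → t ≤ n → φ s + φ t + 1 ≤ φ (s + t + k)
  small : Tendsto (fun l : ℕ => (φ l : ℝ) / l) atTop (𝓝 0)

/-- `G m = (1/4) max(0, f(⌊m/2⌋) - 2)`. -/
noncomputable def GG (f : ℕ → ℕ) (m : ℕ) : ℝ := ((f (m / 2) - 2 : ℕ) : ℝ) / 4

/-- `Λ(m) = m + ∑_{k ≥ 1} (G(2^k) - G(2^(k-1))) max(0, (m+1)/2^k - 1)`. -/
noncomputable def Lam (f : ℕ → ℕ) (m : ℕ) : ℝ :=
  m + ∑ k ∈ Finset.Icc 1 m, (GG f (2 ^ k) - GG f (2 ^ (k - 1))) * max 0 (((m : ℝ) + 1) / 2 ^ k - 1)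

/-- The shifts `c` compatible with the final segment without vertical walls of the row `j` of the
strip `0 ≤ i < n`. -/
def finSet (n : ℕ) (x : ℤ × ℤ → Letter) (j : ℤ) : Set ℤ :=
  {c | ∀ i : ℤ, 0 ≤ i → i < n → (∀ i' : ℤ, i < i' → i' < n → lv x i' j = false) →
    la x i j = pd (i + c)}

/-- The shifts `c` compatible with the initial segment without vertical walls of the row `j` of the
strip `0 ≤ i < n`. -/
def iniSet (n : ℕ) (x : ℤ × ℤ → Letter) (j : ℤ) : Set ℤ :=
  {c | ∀ i : ℤ, 0 ≤ i → i < n → (∀ i' : ℤ, 0 < i' → i' ≤ i → lv x i' j = false) →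
    la x i j = pd (i + c)}

open Classical in
/-- A choice function on sets of integers. -/
noncomputable def pick (S : Set ℤ) : ℤ := if h : S.Nonempty then h.some else 0

/-- The extension of the strip `0 ≤ i < n` of the configuration `x`. -/
noncomputable def ext (n : ℕ) (x : ℤ × ℤ → Letter) : ℤ × ℤ → Letter := fun m =>
  if m.1 < 0 then
    if lv x 0 m.2 = true then
      (pd m.1, pd m.2, false, lh x 0 m.2 && !(lv x 0 (m.2 - 1)))
    else
      (pd (m.1 + pick (iniSet n x m.2)), lb x 0 m.2, false, lh x 0 m.2)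
  else if m.1 < n then x m
  else (pd (m.1 + pick (finSet n x m.2)), lb x ((n : ℤ) - 1) m.2, false, lh x ((n : ℤ) - 1) m.2)

/-- The gluing of the configurations `y₁` (for `i < n + k / 2`) and `y₂` moved by `n + k`, with a
full vertical wall at `i = n + k / 2`. -/
def glued (n k : ℕ) (y₁ y₂ : ℤ × ℤ → Letter) : ℤ × ℤ → Letter := fun m =>
  if m.1 < ((n + k / 2 : ℕ) : ℤ) then y₁ m
  else if m.1 = ((n + k / 2 : ℕ) : ℤ) then
    ((y₂ (m.1 - ((n + k : ℕ) : ℤ), m.2)).1, (y₂ (m.1 - ((n + k : ℕ) : ℤ), m.2)).2.1, true,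
      (y₂ (m.1 - ((n + k : ℕ) : ℤ), m.2)).2.2.2)
  else y₂ (m.1 - ((n + k : ℕ) : ℤ), m.2)

end Pool.Agent.Helper59.SH
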