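import Pool.Agent.Helper59.SH.Defs

/-!
# SH-05  XX φ is a nonempty subshift

Proof. Closed: each of the rules at given `i, j, l` is a condition on the restriction of `x` to a finite set of cells, so it
defines a clopen set: the maps `x ↦ x m` are continuous into a discrete space, and for a finite set `F` of cells and any predicate
`P` on `F → Letter` the set `{x | P (x restricted to F)}` is clopen (`isClosed_discrete`/preimage of any set under the continuous
map `x ↦ fun m : F => x m` into the discrete finite space). `XX φ` is the intersection of these sets. Write the rules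
`rowWord`, `colWord` as: the implication between two predicates of the restriction to the interval.
Shift: `la (shift (u, w) x) i j = la x (i + u) (j + w)` etc.; in `rowWord` the shift `c` becomes `c - u` or `c + u`.
Nonempty: `a (i, j) = pd i`, `b (i, j) = pd j`, `v = h = false` (all the filters are empty, `c = 0`).
-/

set_option autoImplicit false

open Filter Topology

namespace Pool.Agent.Helper59.SH

private theorem exists_agree {S : Set (ℤ × ℤ → Letter)} {x : ℤ × ℤ → Letter}
    (hx : x ∈ closure S) (F : Finset (ℤ × ℤ)) : ∃ y ∈ S, ∀ m ∈ F, y m = x m := by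
  rw [mem_closure_iff] at hx
  have hopen : IsOpen {y : ℤ × ℤ → Letter | ∀ m ∈ F, y m = x m} := by
    have h : {y : ℤ × ℤ → Letter | ∀ m ∈ F, y m = x m} =
        (F : Set (ℤ × ℤ)).pi (fun m => ({x m} : Set Letter)) := by
      ext y
      simp [Set.mem_pi]
    rw [h]
    exact isOpen_set_pi F.finite_toSet (fun _ _ => isOpen_discrete _)
  obtain ⟨y, hy1, hy2⟩ := hx _ hopen (fun m _ => rfl)
  exact ⟨y, hy2, hy1⟩

private theorem rules_closure {φ : ℕ → ℕ} {x : ℤ × ℤ → Letter} (hx : x ∈ closure (XX φ)) :
    Rules φ x := by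
  have hrow : ∀ (i j : ℤ) (l : ℕ), ∃ y, Rules φ y ∧ ∀ s : ℕ, s < l → y (i + s, j) = x (i + s, j) := by
    intro i j l
    obtain ⟨y, hy, hF⟩ := exists_agree hx ((Finset.range l).image fun s : ℕ => (i + (s : ℤ), j))
    exact ⟨y, hy, fun s hs => hF _ (Finset.mem_image.2 ⟨s, Finset.mem_range.2 hs, rfl⟩)⟩
  have hcol : ∀ (i j : ℤ) (l : ℕ), ∃ y, Rules φ y ∧ ∀ s : ℕ, s < l → y (i, j + s) = x (i, j + s) := by
    intro i j l
    obtain ⟨y, hy, hF⟩ := exists_agree hx ((Finset.range l).image fun s : ℕ => (i, j + (s : ℤ)))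
    exact ⟨y, hy, fun s hs => hF _ (Finset.mem_image.2 ⟨s, Finset.mem_range.2 hs, rfl⟩)⟩
  refine ⟨?_, ?_, ?_, ?_, ?_, ?_, ?_⟩
  · intro i j l
    obtain ⟨y, hy, hF⟩ := hrow i j l
    have h := hy.row i j l
    rw [Finset.filter_congr (q := fun s : ℕ => lv x (i + s) j = true)] at h
    · exact h
    · intro s hs
      unfold lv
      rw [hF s (Finset.mem_range.1 hs)]
  · intro i j l
    obtain ⟨y, hy, hF⟩ := hcol i j l
    have h := hy.col i j l
    rw [Finset.filter_congr (q := fun s : ℕ => lh x i (j + s) = true)] at h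
    · exact h
    · intro s hs
      unfold lh
      rw [hF s (Finset.mem_range.1 hs)]
  · intro i j l hl
    obtain ⟨y, hy, hF⟩ := hrow i j l
    obtain ⟨c, hc⟩ := hy.rowWord i j l (fun s h0 hs => by
      have h := hl s h0 hs
      unfold lv at h ⊢
      rw [hF s hs]
      exact h)
    refine ⟨c, fun s hs => ?_⟩
    have h := hc s hs
    unfold la at h ⊢
    rw [← hF s hs]
    exact h
  · intro i j l hl
    obtain ⟨y, hy, hF⟩ := hcol i j l
    obtain ⟨c, hc⟩ := hy.colWord i j l (fun s h0 hs => by
      have h := hl s h0 hs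
      unfold lh at h ⊢
      rw [hF s hs]
      exact h)
    refine ⟨c, fun s hs => ?_⟩
    have h := hc s hs
    unfold lb at h ⊢
    rw [← hF s hs]
    exact h
  · intro i j h0
    obtain ⟨y, hy, hF⟩ := exists_agree hx {(i, j), (i, j - 1)}
    have h1 : y (i, j) = x (i, j) := hF _ (by simp)
    have h2 : y (i, j - 1) = x (i, j - 1) := hF _ (by simp)
    have h := hy.rowConst i j
    unfold lh la at h
    unfold lh at h0
    unfold la
    rw [h1, h2] at h
    exact h h0
  · intro i j h0
    obtain ⟨y, hy, hF⟩ := exists_agree hx {(i, j), (i - 1, j)}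
    have h1 : y (i, j) = x (i, j) := hF _ (by simp)
    have h2 : y (i - 1, j) = x (i - 1, j) := hF _ (by simp)
    have h := hy.colConst i j
    unfold lv lb at h
    unfold lv at h0
    unfold lb
    rw [h1, h2] at h
    exact h h0
  · intro i j
    obtain ⟨y, hy, hF⟩ := exists_agree hx {(i, j), (i, j - 1), (i - 1, j)}
    have h1 : y (i, j) = x (i, j) := hF _ (by simp)
    have h2 : y (i, j - 1) = x (i, j - 1) := hF _ (by simp)
    have h3 : y (i - 1, j) = x (i - 1, j) := hF _ (by simp)
    have h := hy.junction i j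
    unfold lv lh at h ⊢
    rw [h1, h2, h3] at h
    exact h

private theorem rules_shift {φ : ℕ → ℕ} {x : ℤ × ℤ → Letter} (hx : Rules φ x) (u w : ℤ) :
    Rules φ (Helper60.BlockGluing.shift (u, w) x) := by
  have hla : ∀ i j, la (Helper60.BlockGluing.shift (u, w) x) i j = la x (i + u) (j + w) :=
    fun _ _ => rfl
  have hlb : ∀ i j, lb (Helper60.BlockGluing.shift (u, w) x) i j = lb x (i + u) (j + w) :=
    fun _ _ => rfl
  have hlv : ∀ i j, lv (Helper60.BlockGluing.shift (u, w) x) i j = lv x (i + u) (j + w) :=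
    fun _ _ => rfl
  have hlh : ∀ i j, lh (Helper60.BlockGluing.shift (u, w) x) i j = lh x (i + u) (j + w) :=
    fun _ _ => rfl
  refine ⟨?_, ?_, ?_, ?_, ?_, ?_, ?_⟩
  · intro i j l
    have h := hx.row (i + u) (j + w) l
    simp only [hlv]
    have e : ∀ s : ℕ, i + (s : ℤ) + u = i + u + s := fun s => by ring
    simp only [e]
    exact h
  · intro i j l
    have h := hx.col (i + u) (j + w) l
    simp only [hlh]
    have e : ∀ s : ℕ, j + (s : ℤ) + w = j + w + s := fun s => by ring
    simp only [e]
    exact h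
  · intro i j l hl
    have e : ∀ s : ℕ, i + (s : ℤ) + u = i + u + s := fun s => by ring
    obtain ⟨c, hc⟩ := hx.rowWord (i + u) (j + w) l (fun s h0 hs => by
      rw [← e, ← hlv]
      exact hl s h0 hs)
    refine ⟨u + c, fun s hs => ?_⟩
    rw [hla, e, hc s hs]
    congr 1
    ring
  · intro i j l hl
    have e : ∀ s : ℕ, j + (s : ℤ) + w = j + w + s := fun s => by ring
    obtain ⟨c, hc⟩ := hx.colWord (i + u) (j + w) l (fun s h0 hs => by
      rw [← e, ← hlh]
      exact hl s h0 hs)
    refine ⟨w + c, fun s hs => ?_⟩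
    rw [hlb, e, hc s hs]
    congr 1
    ring
  · intro i j h0
    rw [hlh] at h0
    rw [hla, hla, hx.rowConst _ _ h0]
    congr 1
    ring
  · intro i j h0
    rw [hlv] at h0
    rw [hlb, hlb, hx.colConst _ _ h0]
    congr 1
    ring
  · intro i j
    rw [hlv, hlv, hlh, hlh]
    have h := hx.junction (i + u) (j + w)
    rw [show i + u - 1 = i - 1 + u by ring, show j + w - 1 = j - 1 + w by ring] at h
    exact h

theorem isSubshift_XX (φ : ℕ → ℕ) : Helper60.BlockGluing.IsSubshift (XX φ) := by
  refine ⟨?_, ?_⟩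
  · refine isClosed_of_closure_subset fun x hx => ?_
    exact rules_closure hx
  · rintro ⟨u, w⟩ x hx
    exact rules_shift hx u w

theorem nonempty_XX (φ : ℕ → ℕ) : (XX φ).Nonempty := by
  refine ⟨fun m => (pd m.1, pd m.2, false, false), ?_⟩
  refine ⟨?_, ?_, ?_, ?_, ?_, ?_, ?_⟩
  · intro i j l
    simp [lv]
  · intro i j l
    simp [lh]
  · intro i j l _
    exact ⟨0, fun s _ => by simp [la]⟩
  · intro i j l _
    exact ⟨0, fun s _ => by simp [lb]⟩
  · intro i j _
    rfl
  · intro i j _
    rfl
  · intro i j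
    exact Or.inr (Or.inr ⟨rfl, rfl, rfl, rfl⟩)

end Pool.Agent.Helper59.SH
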