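import Pool.Agent.Helper59.SH.Count
import Pool.Agent.Helper59.SH.Sub

/-!
# SH-17  The entropy is 0

Proof. `1 ≤ Nat.card (lang X n)` (nonempty and finite), so the logarithm is `≥ 0`. For `0 < d ≤ 1`, `n ≥ 1`, by `card_lang_le` and
`sum_choose_le` (`N = n²`, `K = n φ(n)`):
`log |L_n| / n² ≤ 2 log(1 + d) + 2 (φ n / n) log(1/d) + 2 log 2 (1/n + φ n / n)`, and `log (1 + d) ≤ d`. As `φ n / n → 0` the
limsup is at most `2 d` for every `d`; so for `ε > 0` take `d = min 1 (ε/4)` and `n` large.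
-/

set_option autoImplicit false

open Filter Topology

namespace Pool.Agent.Helper59.SH

private theorem log_card_le (φ : ℕ → ℕ) (n : ℕ) (hn : 1 ≤ n) (d : ℝ) (hd : 0 < d) (hd1 : d ≤ 1) :
    Real.log (Nat.card (Helper60.BlockGluing.lang (XX φ) n)) / (n : ℝ) ^ 2 ≤
      2 * d + (2 * ((φ n : ℝ) / n) * (-Real.log d) + 2 * Real.log 2 * (1 / (n : ℝ) + (φ n : ℝ) / n)) := by
  have hn0 : (0 : ℝ) < n := by exact_mod_cast hn
  have hlogd : 0 ≤ -Real.log d := by
    have := Real.log_nonpos hd.le hd1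
    linarith
  have hlog2 : 0 < Real.log 2 := Real.log_pos (by norm_num)
  have hrhs : 0 ≤ 2 * d + (2 * ((φ n : ℝ) / n) * (-Real.log d) +
      2 * Real.log 2 * (1 / (n : ℝ) + (φ n : ℝ) / n)) := by positivity
  rcases Nat.eq_zero_or_pos (Nat.card (Helper60.BlockGluing.lang (XX φ) n)) with h0 | h0
  · rw [h0, Nat.cast_zero, Real.log_zero, zero_div]
    exact hrhs
  have h1 := card_lang_le φ n
  obtain ⟨S, hS⟩ : ∃ S, S = ∑ k ∈ Finset.range (n * φ n + 1), (n ^ 2).choose k := ⟨_, rfl⟩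
  rw [← hS] at h1
  have hS0 : 0 < S := by
    rcases Nat.eq_zero_or_pos S with h | h
    · exfalso
      rw [h, zero_pow two_ne_zero, zero_mul] at h1
      exact absurd h1 (not_le.2 h0)
    · exact h
  have hS0' : (0 : ℝ) < S := by exact_mod_cast hS0
  have h2 : (S : ℝ) ≤ (1 + d) ^ (n ^ 2) / d ^ (n * φ n) := by
    rw [hS]
    push_cast
    exact sum_choose_le (n ^ 2) (n * φ n) d hd hd1
  have h3 : Real.log S ≤ (n : ℝ) ^ 2 * d + (n * φ n : ℝ) * (-Real.log d) := by
    have h4 := Real.log_le_log hS0' h2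
    rw [Real.log_div (by positivity) (by positivity), Real.log_pow, Real.log_pow] at h4
    push_cast at h4
    have h5 : Real.log (1 + d) ≤ d := by
      have := Real.log_le_sub_one_of_pos (by linarith : 0 < 1 + d)
      linarith
    have h6 : (n : ℝ) ^ 2 * Real.log (1 + d) ≤ (n : ℝ) ^ 2 * d :=
      mul_le_mul_of_nonneg_left h5 (by positivity)
    linarith
  have h4 : Real.log (Nat.card (Helper60.BlockGluing.lang (XX φ) n)) ≤
      2 * Real.log S + (2 * (n + n * φ n : ℝ)) * Real.log 2 := by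
    have h5 : (Nat.card (Helper60.BlockGluing.lang (XX φ) n) : ℝ) ≤
        (S : ℝ) ^ 2 * 2 ^ (2 * (n + n * φ n)) := by exact_mod_cast h1
    have h6 := Real.log_le_log (by exact_mod_cast h0) h5
    rw [Real.log_mul (by positivity) (by positivity), Real.log_pow, Real.log_pow] at h6
    push_cast at h6
    exact h6
  rw [div_le_iff₀ (by positivity)]
  have h5 : (2 * d + (2 * ((φ n : ℝ) / n) * (-Real.log d) +
      2 * Real.log 2 * (1 / (n : ℝ) + (φ n : ℝ) / n))) * (n : ℝ) ^ 2 =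
      2 * ((n : ℝ) ^ 2 * d + (n * φ n : ℝ) * (-Real.log d)) +
        (2 * (n + n * φ n : ℝ)) * Real.log 2 := by
    field_simp
    ring
  rw [h5]
  linarith

theorem hasEntropy_zero {f φ : ℕ → ℕ} (hφ : IsPhi f φ) :
    Helper60.BlockGluing.HasEntropy (XX φ) 0 := by
  unfold Helper60.BlockGluing.HasEntropy
  rw [Metric.tendsto_atTop]
  intro ε hε
  obtain ⟨d, hd⟩ : ∃ d, d = min 1 (ε / 4) := ⟨_, rfl⟩
  have hd0 : 0 < d := by rw [hd]; exact lt_min one_pos (by positivity)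
  have hd1 : d ≤ 1 := by rw [hd]; exact min_le_left _ _
  have hdε : d ≤ ε / 4 := by rw [hd]; exact min_le_right _ _
  have h1 : Tendsto (fun n : ℕ => 2 * ((φ n : ℝ) / n) * (-Real.log d) +
      2 * Real.log 2 * (1 / (n : ℝ) + (φ n : ℝ) / n)) atTop
      (𝓝 (2 * 0 * (-Real.log d) + 2 * Real.log 2 * (0 + 0))) := by
    have h2 : Tendsto (fun n : ℕ => 1 / (n : ℝ)) atTop (𝓝 0) := tendsto_one_div_atTop_nhds_zero_nat
    exact ((hφ.small.const_mul 2).mul_const _).add ((h2.add hφ.small).const_mul _)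
  have h2 : (2 : ℝ) * 0 * (-Real.log d) + 2 * Real.log 2 * (0 + 0) = 0 := by ring
  rw [h2] at h1
  have h3 := h1.eventually (gt_mem_nhds (by positivity : (0 : ℝ) < ε / 2))
  obtain ⟨N, hN⟩ := eventually_atTop.1 (h3.and (eventually_ge_atTop 1))
  refine ⟨N, fun n hn => ?_⟩
  obtain ⟨h4, h5⟩ := hN n hn
  have h6 := log_card_le φ n h5 d hd0 hd1
  have h7 : 0 ≤ Real.log (Nat.card (Helper60.BlockGluing.lang (XX φ) n)) / (n : ℝ) ^ 2 :=
    div_nonneg (Real.log_natCast_nonneg _) (by positivity)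
  rw [Real.dist_eq, sub_zero, abs_of_nonneg h7]
  linarith

end Pool.Agent.Helper59.SH
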