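import Pool.Agent.Helper59.SH.Defs

/-!
# SH-08  The extension of a strip: the counting rules

Proof. `lv (ext n x) i j = true → lv x i j = true` (`v` is false outside the strip), so the filter for `ext n x` is contained in the
filter for `x`. Columns: for `0 ≤ i < n` the same; for `n ≤ i`: `lh (ext n x) i j = lh x (n-1) j`; for `i < 0`:
`lh (ext n x) i j = true → lh x 0 j = true`.
-/

set_option autoImplicit false

open Filter Topology

namespace Pool.Agent.Helper59.SH

variable {φ : ℕ → ℕ} {x : ℤ × ℤ → Letter}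

theorem lv_ext_out (n : ℕ) (i j : ℤ) (h : i < 0 ∨ (n : ℤ) ≤ i) : lv (ext n x) i j = false := by
  unfold lv ext
  rcases h with h | h
  · simp only [h, if_true]
    split_ifs <;> rfl
  · have h0 : ¬ i < 0 := by
      have : (0 : ℤ) ≤ n := Int.natCast_nonneg n
      omega
    have h1 : ¬ i < (n : ℤ) := not_lt.mpr h
    simp only [h0, h1, if_false]

theorem ext_in (n : ℕ) (i j : ℤ) (h0 : 0 ≤ i) (h1 : i < n) : ext n x (i, j) = x (i, j) := by
  unfold ext
  have h0' : ¬ i < 0 := not_lt.mpr h0
  simp only [h0', h1, if_false, if_true]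

private theorem lv_ext_imp (n : ℕ) (i j : ℤ) (h : lv (ext n x) i j = true) : lv x i j = true := by
  by_cases hi : i < 0 ∨ (n : ℤ) ≤ i
  · rw [lv_ext_out n i j hi] at h
    exact absurd h (by simp)
  · push Not at hi
    have := ext_in (x := x) n i j hi.1 hi.2
    unfold lv at h ⊢
    rwa [this] at h

theorem ext_row (hx : Rules φ x) (n : ℕ) (i j : ℤ) (l : ℕ) :
    ((Finset.range l).filter (fun s : ℕ => lv (ext n x) (i + s) j = true)).card ≤ φ l := by
  refine le_trans (Finset.card_le_card ?_) (hx.row i j l)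
  intro s hs
  rw [Finset.mem_filter] at hs ⊢
  exact ⟨hs.1, lv_ext_imp n _ _ hs.2⟩

theorem ext_col (hx : Rules φ x) (n : ℕ) (i j : ℤ) (l : ℕ) :
    ((Finset.range l).filter (fun s : ℕ => lh (ext n x) i (j + s) = true)).card ≤ φ l := by
  have key : ∃ i' : ℤ, ∀ j' : ℤ, lh (ext n x) i j' = true → lh x i' j' = true := by
    by_cases h0 : i < 0
    · refine ⟨0, fun j' h => ?_⟩
      unfold lh ext at h
      simp only [h0, if_true] at h
      split_ifs at h
      · simp only [Bool.and_eq_true] at h
        exact h.1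
      · exact h
    · by_cases h1 : i < (n : ℤ)
      · refine ⟨i, fun j' h => ?_⟩
        have := ext_in (x := x) n i j' (not_lt.mp h0) h1
        unfold lh at h ⊢
        rwa [this] at h
      · refine ⟨(n : ℤ) - 1, fun j' h => ?_⟩
        unfold lh ext at h
        simp only [h0, h1, if_false] at h
        exact h
  obtain ⟨i', hi'⟩ := key
  refine le_trans (Finset.card_le_card ?_) (hx.col i' j l)
  intro s hs
  rw [Finset.mem_filter] at hs ⊢
  exact ⟨hs.1, hi' _ hs.2⟩

end Pool.Agent.Helper59.SH
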