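import Pool.Agent.Helper59.SH.ExtSets

/-!
# SH-10  The extension of a strip: the local rules

Proof. `n ≥ 1`. `ext_rowConst` (at `(i, j)`, `h = 0` in `ext n x`): `0 ≤ i < n`: `x`. `n ≤ i`: `lh x (n-1) j = false`, so `finSet_eq`.
`i < 0`: if `lv x 0 j = true`: `lh x 0 j && !(lv x 0 (j-1)) = false`; if `lv x 0 (j-1) = true` both values of `a` are `pd i`; if
`lv x 0 (j-1) = false` then `junction` at `(0, j)` (one of the two `lv` is false, the other true) gives `lh x 0 j = true`,
contradiction. If `lv x 0 j = false`: `lh x 0 j = false`, `lv x 0 (j-1) = false` by `lv_zero_eq` and `iniSet_eq`.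
`ext_colConst`: `0 < i < n`: `x`; `i < 0` or `i > n`: `b` does not depend on `i`; `i = n`: `b (n, j) = lb x (n-1) j`;
`i = 0`: `lv x 0 j = false`, `b (-1, j) = lb x 0 j`.
`ext_junction` at `(i, j)`: `0 < i < n`: `x`. `i > n` or `i < 0`: both `v` are false and the two `h` are equal. `i = n`: both `v` false,
the two `h` equal `lh x (n-1) j`. `i = 0`: the `v` are `lv x 0 j`, `lv x 0 (j-1)`, the right `h` is `lh x 0 j`. Both `v` true:
first case. Exactly one of them true: `junction` of `x` at `(0, j)` gives `lh x 0 j = true`; the left `h` is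
`lh x 0 j && !(lv x 0 (j-1)) = true` if `lv x 0 j = true` (then `lv x 0 (j-1) = false`) and `lh x 0 j = true` if `lv x 0 j = false`: second
case. Both false: the left `h` is `lh x 0 j`, second or third case.
-/

set_option autoImplicit false

open Filter Topology

namespace Pool.Agent.Helper59.SH

variable {φ : ℕ → ℕ} {x : ℤ × ℤ → Letter}

section cases

variable {n : ℕ} {i j : ℤ}

private theorem ext_neg_true (hi : i < 0) (hv : lv x 0 j = true) :
    ext n x (i, j) = (pd i, pd j, false, lh x 0 j && !(lv x 0 (j - 1))) := by
  simp only [ext, if_pos hi, if_pos hv]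

private theorem ext_neg_false (hi : i < 0) (hv : lv x 0 j = false) :
    ext n x (i, j) = (pd (i + pick (iniSet n x j)), lb x 0 j, false, lh x 0 j) := by
  have hv' : ¬ lv x 0 j = true := by rw [hv]; decide
  simp only [ext, if_pos hi, if_neg hv']

private theorem ext_mid (h0 : 0 ≤ i) (hi : i < n) : ext n x (i, j) = x (i, j) := by
  have h1 : ¬ i < 0 := by omega
  simp only [ext, if_neg h1, if_pos hi]

private theorem ext_ge (hi : (n : ℤ) ≤ i) :
    ext n x (i, j) = (pd (i + pick (finSet n x j)), lb x ((n : ℤ) - 1) j, false,
      lh x ((n : ℤ) - 1) j) := by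
  have h1 : ¬ i < 0 := by omega
  have h2 : ¬ i < (n : ℤ) := by omega
  simp only [ext, if_neg h1, if_neg h2]

end cases

theorem ext_rowConst (hx : Rules φ x) (n : ℕ) (hn : 1 ≤ n) (i j : ℤ)
    (h : lh (ext n x) i j = false) : la (ext n x) i j = la (ext n x) i (j - 1) := by
  rcases lt_or_ge i 0 with hi | hi
  · cases hv : lv x 0 j with
    | true =>
      unfold lh at h
      rw [ext_neg_true hi hv] at h
      change (lh x 0 j && !(lv x 0 (j - 1))) = false at h
      cases hv' : lv x 0 (j - 1) with
      | true =>
        unfold la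
        rw [ext_neg_true hi hv, ext_neg_true hi hv']
      | false =>
        exfalso
        rw [hv'] at h
        have h1 : lh x 0 j = false := by simpa using h
        rcases hx.junction 0 j with h2 | h2 | h2
        · rw [hv'] at h2
          exact absurd h2.2 (by decide)
        · rw [h1] at h2
          exact absurd h2.1 (by decide)
        · rw [hv] at h2
          exact absurd h2.1 (by decide)
    | false =>
      unfold lh at h
      rw [ext_neg_false hi hv] at h
      change lh x 0 j = false at h
      have hv' := lv_zero_eq hx j h hv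
      unfold la
      rw [ext_neg_false hi hv, ext_neg_false hi hv', iniSet_eq hx n j h]
  · rcases lt_or_ge i n with hi' | hi'
    · unfold lh at h
      rw [ext_mid hi hi'] at h
      unfold la
      rw [ext_mid hi hi', ext_mid hi hi']
      exact hx.rowConst i j h
    · unfold lh at h
      rw [ext_ge hi'] at h
      change lh x ((n : ℤ) - 1) j = false at h
      unfold la
      rw [ext_ge hi', ext_ge hi', finSet_eq hx n j h]

theorem ext_colConst (hx : Rules φ x) (n : ℕ) (hn : 1 ≤ n) (i j : ℤ)
    (h : lv (ext n x) i j = false) : lb (ext n x) i j = lb (ext n x) (i - 1) j := by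
  rcases lt_trichotomy i 0 with hi | hi | hi
  · have hi1 : i - 1 < 0 := by omega
    cases hv : lv x 0 j with
    | true =>
      unfold lb
      rw [ext_neg_true hi hv, ext_neg_true hi1 hv]
    | false =>
      unfold lb
      rw [ext_neg_false hi hv, ext_neg_false hi1 hv]
  · subst hi
    have h0n : (0 : ℤ) < n := by omega
    unfold lv at h
    rw [ext_mid le_rfl h0n] at h
    have hv : lv x 0 j = false := h
    unfold lb
    rw [ext_mid le_rfl h0n, ext_neg_false (by omega) hv]
    rfl
  · rcases lt_trichotomy i n with hi' | hi' | hi'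
    · unfold lv at h
      rw [ext_mid hi.le hi'] at h
      unfold lb
      rw [ext_mid hi.le hi', ext_mid (by omega) (by omega)]
      exact hx.colConst i j h
    · subst hi'
      unfold lb
      rw [ext_ge le_rfl, ext_mid (by omega) (by omega)]
      rfl
    · unfold lb
      rw [ext_ge hi'.le, ext_ge (by omega)]

theorem ext_junction (hx : Rules φ x) (n : ℕ) (hn : 1 ≤ n) (i j : ℤ) :
    (lv (ext n x) i j = true ∧ lv (ext n x) i (j - 1) = true) ∨
    (lh (ext n x) i j = true ∧ lh (ext n x) (i - 1) j = true) ∨
    (lv (ext n x) i j = false ∧ lv (ext n x) i (j - 1) = false ∧ lh (ext n x) i j = false ∧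
      lh (ext n x) (i - 1) j = false) := by
  have hvneg : ∀ (i' j' : ℤ), i' < 0 → lv (ext n x) i' j' = false := by
    intro i' j' hi'
    unfold lv
    cases hv : lv x 0 j' with
    | true =>
      have := ext_neg_true (n := n) hi' hv
      unfold lv at hv
      rw [this]
    | false =>
      have := ext_neg_false (n := n) hi' hv
      unfold lv at hv
      rw [this]
  have hvge : ∀ (i' j' : ℤ), (n : ℤ) ≤ i' → lv (ext n x) i' j' = false := by
    intro i' j' hi'
    unfold lv
    rw [ext_ge hi']
  have hhge : ∀ (i' j' : ℤ), (n : ℤ) ≤ i' → lh (ext n x) i' j' = lh x ((n : ℤ) - 1) j' := by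
    intro i' j' hi'
    unfold lh
    rw [ext_ge hi']
    rfl
  rcases lt_trichotomy i 0 with hi | hi | hi
  · have hi1 : i - 1 < 0 := by omega
    have he : lh (ext n x) (i - 1) j = lh (ext n x) i j := by
      cases hv : lv x 0 j with
      | true =>
        unfold lh
        rw [ext_neg_true hi hv, ext_neg_true hi1 hv]
      | false =>
        unfold lh
        rw [ext_neg_false hi hv, ext_neg_false hi1 hv]
    cases hh : lh (ext n x) i j with
    | true => exact Or.inr (Or.inl ⟨rfl, he.trans hh⟩)
    | false => exact Or.inr (Or.inr ⟨hvneg _ _ hi, hvneg _ _ hi, rfl, he.trans hh⟩)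
  · subst hi
    have h0n : (0 : ℤ) < n := by omega
    have e1 : lv (ext n x) 0 j = lv x 0 j := by
      unfold lv
      rw [ext_mid le_rfl h0n]
    have e2 : lv (ext n x) 0 (j - 1) = lv x 0 (j - 1) := by
      unfold lv
      rw [ext_mid le_rfl h0n]
    have e3 : lh (ext n x) 0 j = lh x 0 j := by
      unfold lh
      rw [ext_mid le_rfl h0n]
    have hm1 : (0 : ℤ) - 1 < 0 := by omega
    rw [e1, e2, e3]
    cases hv : lv x 0 j with
    | true =>
      cases hv' : lv x 0 (j - 1) with
      | true => exact Or.inl ⟨rfl, rfl⟩
      | false =>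
        have e4 : lh (ext n x) (0 - 1) j = lh x 0 j := by
          have := ext_neg_true (n := n) hm1 hv
          rw [hv'] at this
          unfold lh at this ⊢
          rw [this]
          simp
        rw [e4]
        rcases hx.junction 0 j with h2 | h2 | h2
        · rw [hv'] at h2
          exact absurd h2.2 (by decide)
        · exact Or.inr (Or.inl ⟨h2.1, h2.1⟩)
        · rw [hv] at h2
          exact absurd h2.1 (by decide)
    | false =>
      have e4 : lh (ext n x) (0 - 1) j = lh x 0 j := by
        have := ext_neg_false (n := n) hm1 hv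
        unfold lh at this ⊢
        rw [this]
      rw [e4]
      cases hh : lh x 0 j with
      | true => exact Or.inr (Or.inl ⟨rfl, rfl⟩)
      | false =>
        exact Or.inr (Or.inr ⟨rfl, lv_zero_eq hx j hh hv, rfl, rfl⟩)
  · rcases lt_trichotomy i n with hi' | hi' | hi'
    · have e1 : ∀ j', lv (ext n x) i j' = lv x i j' := by
        intro j'
        unfold lv
        rw [ext_mid hi.le hi']
      have e2 : lh (ext n x) i j = lh x i j := by
        unfold lh
        rw [ext_mid hi.le hi']
      have e3 : lh (ext n x) (i - 1) j = lh x (i - 1) j := by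
        unfold lh
        rw [ext_mid (by omega) (by omega)]
      rw [e1, e1, e2, e3]
      exact hx.junction i j
    · have e3 : lh (ext n x) (i - 1) j = lh x ((n : ℤ) - 1) j := by
        unfold lh
        rw [ext_mid (by omega) (by omega), hi']
      rw [hhge i j hi'.ge, e3]
      cases hh : lh x ((n : ℤ) - 1) j with
      | true => exact Or.inr (Or.inl ⟨rfl, rfl⟩)
      | false =>
        exact Or.inr (Or.inr ⟨hvge _ _ hi'.ge, hvge _ _ hi'.ge, rfl, rfl⟩)
    · rw [hhge i j hi'.le, hhge (i - 1) j (by omega)]
      cases hh : lh x ((n : ℤ) - 1) j with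
      | true => exact Or.inr (Or.inl ⟨rfl, rfl⟩)
      | false =>
        exact Or.inr (Or.inr ⟨hvge _ _ hi'.le, hvge _ _ hi'.le, rfl, rfl⟩)

end Pool.Agent.Helper59.SH
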