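import Pool.Agent.Helper59.SH.Defs

/-!
# SH-07  The sets of shifts of the first and last segments of a row of the strip

Proof. `finSet_nonempty`: if `n = 0` the condition is empty. Else let `σ ∈ [0, n)` be the largest with `σ = 0` or
`lv x σ j = true`; `Rules.rowWord` on `[σ, n)` gives `c`; an `i ∈ [0, n)` with `lv x i' j = false` for all `i < i' < n`
satisfies `σ ≤ i`. `iniSet_nonempty`: the same with the smallest `τ ∈ (0, n]` with `τ = n` or `lv x τ j = true`, on `[0, τ)`.
`finSet_eq`: (*) if `lh x i j = false` and (`lv x i j = false` or `lv x i (j-1) = false`) then `junction` at `(i, j)` leaves the third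
case only: `lv x i j = lv x i (j-1) = false` and `lh x (i-1) j = false`. So going from `i = n-1` to the left: as long as one of
the two rows `j`, `j-1` is free of vertical walls on `(i, n)`, so is the other one and `lh x i'' j = false` for
`i ≤ i'' < n`, hence `la x i j = la x i (j-1)` by `rowConst`. Formally: for all `i ∈ [0, n)`:
(`∀ i' ∈ (i, n), lv x i' j = false`) `↔` (`∀ i' ∈ (i, n), lv x i' (j-1) = false`), and in this case `lh x i j = false`
(induction on `n - 1 - i`). `iniSet_eq`: the same going from `0` to the right with `junction` at `(i+1, j)`: if `lh x i j = false` and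
(`lv x (i+1) j = false` or `lv x (i+1) (j-1) = false`) then both are false and `lh x (i+1) j = false`.
`lv_zero_eq`: `junction` at `(0, j)`. `finSet_eq_iniSet`: both conditions hold for all `i`.
-/

set_option autoImplicit false

open Filter Topology

namespace Pool.Agent.Helper59.SH

variable {φ : ℕ → ℕ} {x : ℤ × ℤ → Letter}

theorem finSet_nonempty (hx : Rules φ x) (n : ℕ) (j : ℤ) : (finSet n x j).Nonempty := by
  classical
  rcases Nat.eq_zero_or_pos n with hn | hn
  · subst hn
    refine ⟨0, fun i hi0 hi1 _ => ?_⟩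
    exfalso
    simp only [Nat.cast_zero] at hi1
    omega
  · have hex : ∃ σ : ℕ, σ < n ∧ ∀ i' : ℤ, (σ : ℤ) < i' → i' < n → lv x i' j = false := by
      refine ⟨n - 1, by omega, fun i' h1 h2 => ?_⟩
      exfalso
      omega
    have hspec := Nat.find_spec hex
    obtain ⟨hs1, hs2⟩ := hspec
    obtain ⟨c, hc⟩ := hx.rowWord ((Nat.find hex : ℕ) : ℤ) j (n - Nat.find hex) (by
      intro s h0 h1
      exact hs2 _ (by omega) (by omega))
    refine ⟨c, fun i hi0 hi1 hfree => ?_⟩
    have hle : ((Nat.find hex : ℕ) : ℤ) ≤ i := by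
      obtain ⟨m, rfl⟩ := Int.eq_ofNat_of_zero_le hi0
      have : Nat.find hex ≤ m := Nat.find_min' hex ⟨by omega, hfree⟩
      exact_mod_cast this
    have h2 := hc (i - (Nat.find hex : ℕ)).toNat (by omega)
    have h3 : ((Nat.find hex : ℕ) : ℤ) + (((i - (Nat.find hex : ℕ)).toNat : ℕ) : ℤ) = i := by omega
    rw [h3] at h2
    exact h2

theorem iniSet_nonempty (hx : Rules φ x) (n : ℕ) (j : ℤ) : (iniSet n x j).Nonempty := by
  classical
  rcases Nat.eq_zero_or_pos n with hn | hn
  · subst hn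
    refine ⟨0, fun i hi0 hi1 _ => ?_⟩
    exfalso
    simp only [Nat.cast_zero] at hi1
    omega
  · have h0 : ∀ i' : ℤ, 0 < i' → i' ≤ ((0 : ℕ) : ℤ) → lv x i' j = false := by
      intro i' h1 h2
      exfalso
      simp only [Nat.cast_zero] at h2
      omega
    have hspec := Nat.findGreatest_spec
      (P := fun τ : ℕ => ∀ i' : ℤ, 0 < i' → i' ≤ (τ : ℤ) → lv x i' j = false)
      (Nat.zero_le (n - 1)) h0
    set τ := Nat.findGreatest
      (fun τ : ℕ => ∀ i' : ℤ, 0 < i' → i' ≤ (τ : ℤ) → lv x i' j = false) (n - 1) with hτ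
    obtain ⟨c, hc⟩ := hx.rowWord 0 j (τ + 1) (by
      intro s h0 h1
      exact hspec _ (by omega) (by omega))
    refine ⟨c, fun i hi0 hi1 hfree => ?_⟩
    obtain ⟨m, rfl⟩ := Int.eq_ofNat_of_zero_le hi0
    have hle : m ≤ τ := by
      rw [hτ]
      exact Nat.le_findGreatest (by omega) hfree
    have h2 := hc m (by omega)
    rw [zero_add] at h2
    exact h2

private theorem fin_aux (hx : Rules φ x) (n : ℕ) (j : ℤ) (h : lh x ((n : ℤ) - 1) j = false) :
    ∀ k : ℕ, k < n →
      ((∀ i' : ℤ, (n : ℤ) - 1 - k < i' → i' < n → lv x i' j = false) ↔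
        (∀ i' : ℤ, (n : ℤ) - 1 - k < i' → i' < n → lv x i' (j - 1) = false)) ∧
      ((∀ i' : ℤ, (n : ℤ) - 1 - k < i' → i' < n → lv x i' j = false) →
        lh x ((n : ℤ) - 1 - k) j = false) := by
  intro k
  induction k with
  | zero =>
    intro _
    refine ⟨⟨fun _ i' h1 h2 => ?_, fun _ i' h1 h2 => ?_⟩, fun _ => ?_⟩
    · exfalso
      simp only [Nat.cast_zero] at h1
      omega
    · exfalso
      simp only [Nat.cast_zero] at h1
      omega
    · simpa using h
  | succ k ih =>
    intro hk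
    obtain ⟨ih1, ih2⟩ := ih (by omega)
    have he : (n : ℤ) - 1 - ((k + 1 : ℕ) : ℤ) = (n : ℤ) - 1 - k - 1 := by push_cast; ring
    rw [he]
    have split : ∀ r : ℤ, (∀ i' : ℤ, (n : ℤ) - 1 - k - 1 < i' → i' < n → lv x i' r = false) ↔
        (lv x ((n : ℤ) - 1 - k) r = false ∧
          ∀ i' : ℤ, (n : ℤ) - 1 - k < i' → i' < n → lv x i' r = false) := by
      intro r
      constructor
      · intro hh
        exact ⟨hh _ (by omega) (by omega), fun i' h1 h2 => hh _ (by omega) h2⟩
      · rintro ⟨hh1, hh2⟩ i' h1 h2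
        rcases eq_or_lt_of_le (show (n : ℤ) - 1 - k ≤ i' by omega) with h3 | h3
        · rw [← h3]
          exact hh1
        · exact hh2 _ h3 h2
    have key : (∀ i' : ℤ, (n : ℤ) - 1 - k < i' → i' < n → lv x i' j = false) →
        (lv x ((n : ℤ) - 1 - k) j = false ∨ lv x ((n : ℤ) - 1 - k) (j - 1) = false) →
        lv x ((n : ℤ) - 1 - k) j = false ∧ lv x ((n : ℤ) - 1 - k) (j - 1) = false ∧
          lh x ((n : ℤ) - 1 - k - 1) j = false := by
      intro hA hor
      have hl := ih2 hA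
      rcases hx.junction ((n : ℤ) - 1 - k) j with ⟨h1, h2⟩ | ⟨h1, _⟩ | ⟨h1, h2, _, h4⟩
      · exfalso
        rcases hor with h3 | h3
        · rw [h1] at h3
          exact absurd h3 (by decide)
        · rw [h2] at h3
          exact absurd h3 (by decide)
      · exfalso
        rw [hl] at h1
        exact absurd h1 (by decide)
      · exact ⟨h1, h2, h4⟩
    refine ⟨?_, ?_⟩
    · rw [split j, split (j - 1)]
      constructor
      · rintro ⟨h1, h2⟩
        exact ⟨(key h2 (Or.inl h1)).2.1, ih1.1 h2⟩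
      · rintro ⟨h1, h2⟩
        exact ⟨(key (ih1.2 h2) (Or.inr h1)).1, ih1.2 h2⟩
    · rw [split j]
      rintro ⟨h1, h2⟩
      exact (key h2 (Or.inl h1)).2.2

theorem finSet_eq (hx : Rules φ x) (n : ℕ) (j : ℤ) (h : lh x ((n : ℤ) - 1) j = false) :
    finSet n x j = finSet n x (j - 1) := by
  have main : ∀ i : ℤ, 0 ≤ i → i < n →
      ((∀ i' : ℤ, i < i' → i' < n → lv x i' j = false) ↔
        (∀ i' : ℤ, i < i' → i' < n → lv x i' (j - 1) = false)) ∧
      ((∀ i' : ℤ, i < i' → i' < n → lv x i' j = false) → lh x i j = false) := by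
    intro i h0 h1
    have h2 := fin_aux hx n j h ((n : ℤ) - 1 - i).toNat (by omega)
    have h3 : (n : ℤ) - 1 - (((n : ℤ) - 1 - i).toNat : ℕ) = i := by omega
    rw [h3] at h2
    exact h2
  ext c
  constructor
  · intro hc i h0 h1 h2
    obtain ⟨hm1, hm2⟩ := main i h0 h1
    have h3 := hm1.2 h2
    rw [← hx.rowConst i j (hm2 h3)]
    exact hc i h0 h1 h3
  · intro hc i h0 h1 h2
    obtain ⟨hm1, hm2⟩ := main i h0 h1
    rw [hx.rowConst i j (hm2 h2)]
    exact hc i h0 h1 (hm1.1 h2)

private theorem ini_aux (hx : Rules φ x) (j : ℤ) (h : lh x 0 j = false) :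
    ∀ k : ℕ,
      ((∀ i' : ℤ, 0 < i' → i' ≤ (k : ℤ) → lv x i' j = false) ↔
        (∀ i' : ℤ, 0 < i' → i' ≤ (k : ℤ) → lv x i' (j - 1) = false)) ∧
      ((∀ i' : ℤ, 0 < i' → i' ≤ (k : ℤ) → lv x i' j = false) → lh x (k : ℤ) j = false) := by
  intro k
  induction k with
  | zero =>
    refine ⟨⟨fun _ i' h1 h2 => ?_, fun _ i' h1 h2 => ?_⟩, fun _ => ?_⟩
    · exfalso
      simp only [Nat.cast_zero] at h2
      omega
    · exfalso
      simp only [Nat.cast_zero] at h2
      omega
    · simpa using h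
  | succ k ih =>
    obtain ⟨ih1, ih2⟩ := ih
    have he : ((k + 1 : ℕ) : ℤ) = (k : ℤ) + 1 := by push_cast; ring
    rw [he]
    have split : ∀ r : ℤ, (∀ i' : ℤ, 0 < i' → i' ≤ (k : ℤ) + 1 → lv x i' r = false) ↔
        (lv x ((k : ℤ) + 1) r = false ∧ ∀ i' : ℤ, 0 < i' → i' ≤ (k : ℤ) → lv x i' r = false) := by
      intro r
      constructor
      · intro hh
        exact ⟨hh _ (by omega) le_rfl, fun i' h1 h2 => hh _ h1 (by omega)⟩
      · rintro ⟨hh1, hh2⟩ i' h1 h2
        rcases eq_or_lt_of_le h2 with h3 | h3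
        · rw [h3]
          exact hh1
        · exact hh2 _ h1 (by omega)
    have key : (∀ i' : ℤ, 0 < i' → i' ≤ (k : ℤ) → lv x i' j = false) →
        (lv x ((k : ℤ) + 1) j = false ∨ lv x ((k : ℤ) + 1) (j - 1) = false) →
        lv x ((k : ℤ) + 1) j = false ∧ lv x ((k : ℤ) + 1) (j - 1) = false ∧
          lh x ((k : ℤ) + 1) j = false := by
      intro hA hor
      have hl := ih2 hA
      rcases hx.junction ((k : ℤ) + 1) j with ⟨h1, h2⟩ | ⟨_, h1⟩ | ⟨h1, h2, h4, _⟩
      · exfalso
        rcases hor with h3 | h3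
        · rw [h1] at h3
          exact absurd h3 (by decide)
        · rw [h2] at h3
          exact absurd h3 (by decide)
      · exfalso
        rw [add_sub_cancel_right, hl] at h1
        exact absurd h1 (by decide)
      · exact ⟨h1, h2, h4⟩
    refine ⟨?_, ?_⟩
    · rw [split j, split (j - 1)]
      constructor
      · rintro ⟨h1, h2⟩
        exact ⟨(key h2 (Or.inl h1)).2.1, ih1.1 h2⟩
      · rintro ⟨h1, h2⟩
        exact ⟨(key (ih1.2 h2) (Or.inr h1)).1, ih1.2 h2⟩
    · rw [split j]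
      rintro ⟨h1, h2⟩
      exact (key h2 (Or.inl h1)).2.2

theorem iniSet_eq (hx : Rules φ x) (n : ℕ) (j : ℤ) (h : lh x 0 j = false) :
    iniSet n x j = iniSet n x (j - 1) := by
  have main : ∀ i : ℤ, 0 ≤ i →
      ((∀ i' : ℤ, 0 < i' → i' ≤ i → lv x i' j = false) ↔
        (∀ i' : ℤ, 0 < i' → i' ≤ i → lv x i' (j - 1) = false)) ∧
      ((∀ i' : ℤ, 0 < i' → i' ≤ i → lv x i' j = false) → lh x i j = false) := by
    intro i h0
    obtain ⟨k, rfl⟩ := Int.eq_ofNat_of_zero_le h0
    exact ini_aux hx j h k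
  ext c
  constructor
  · intro hc i h0 h1 h2
    obtain ⟨hm1, hm2⟩ := main i h0
    have h3 := hm1.2 h2
    rw [← hx.rowConst i j (hm2 h3)]
    exact hc i h0 h1 h3
  · intro hc i h0 h1 h2
    obtain ⟨hm1, hm2⟩ := main i h0
    rw [hx.rowConst i j (hm2 h2)]
    exact hc i h0 h1 (hm1.1 h2)

theorem lv_zero_eq (hx : Rules φ x) (j : ℤ) (h : lh x 0 j = false) (h1 : lv x 0 j = false) :
    lv x 0 (j - 1) = false := by
  rcases hx.junction 0 j with ⟨h2, _⟩ | ⟨h2, _⟩ | ⟨_, h3, _, _⟩
  · rw [h1] at h2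
    exact absurd h2 (by decide)
  · rw [h] at h2
    exact absurd h2 (by decide)
  · exact h3

theorem finSet_eq_iniSet (n : ℕ) (j : ℤ)
    (h : ∀ i : ℤ, 0 < i → i < n → lv x i j = false) : finSet n x j = iniSet n x j := by
  ext c
  constructor
  · intro hc i h0 h1 _
    exact hc i h0 h1 (fun i' h2 h3 => h i' (by omega) h3)
  · intro hc i h0 h1 _
    exact hc i h0 h1 (fun i' h2 h3 => h i' h2 (by omega))

theorem pick_mem {S : Set ℤ} (hS : S.Nonempty) : pick S ∈ S := by
  unfold pick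
  rw [dif_pos hS]
  exact hS.some_mem

end Pool.Agent.Helper59.SH
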