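import Pool.Agent.Helper59.SH.ExtSets

/-!
# SH-09  The extension of a strip: words in the rows and columns

Proof. `ext_rowWord` (`n ≥ 1`). The interval is `I = [i, i+l)`, free of `v` at all its cells but the first one. (`l = 0`: trivial.)
(A) `I ⊆ [0, n)`: `Rules.rowWord` of `x`. (B) `I ⊆ (-∞, 0)`: if `lv x 0 j = true` then `a = pd i'`, `c = 0`; else `c = pick (iniSet n x j)`.
(C) `I ⊆ [n, ∞)`: `c = pick (finSet n x j)`. (D) `I` meets `(-∞, 0)` and `[0, n)` but not `[n, ∞)`: then `0` is not the first cell
of `I`, so `lv x 0 j = false`, and all the cells `i' ∈ [0, i+l)` satisfy the condition of `iniSet`: `c = pick (iniSet n x j)`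
(`pick_mem`, `iniSet_nonempty`) works everywhere. (E) `I` meets `[0, n)` and `[n, ∞)` but not `(-∞, 0)`: each cell `i' ∈ I ∩ [0, n)`
satisfies the condition of `finSet`: `c = pick (finSet n x j)`. (F) `I` meets all three parts (it contains `[0, n)`): then
`lv x i' j = false` for `0 ≤ i' < n`, `finSet n x j = iniSet n x j`, `c = pick` of it.
`ext_colWord`. Column `0 ≤ i < n`: `x`. Column `i ≥ n`: the `b` and `h` of column `n - 1`. Column `i < 0`: with
`V j = lv x 0 j`: the `h` of the column is false at all the cells of the interval but the first one; at such a cell `j'`: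
if `V j' = false` then `lh x 0 j' = false` and `V (j'-1) = false` (`lv_zero_eq`); if `V j' = true` then `V (j'-1) = true` (else
`junction` at `(0, j')` gives `lh x 0 j' = true` and the new `h` is true). So `V` is constant on the interval. If it is
true, `b = pd j'`, `c = 0`. If it is false: `b = lb x 0 j'` and `lh x 0 j' = false` inside: `Rules.colWord` of `x`.
-/

set_option autoImplicit false

open Filter Topology

namespace Pool.Agent.Helper59.SH

variable {φ : ℕ → ℕ} {x : ℤ × ℤ → Letter}

private theorem ext_neg_t (n : ℕ) (i j : ℤ) (hi : i < 0) (hv : lv x 0 j = true) :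
    ext n x (i, j) = (pd i, pd j, false, lh x 0 j && !(lv x 0 (j - 1))) := by
  unfold ext
  rw [if_pos (show (i, j).1 < 0 from hi), if_pos hv]

private theorem ext_neg_f (n : ℕ) (i j : ℤ) (hi : i < 0) (hv : ¬ lv x 0 j = true) :
    ext n x (i, j) = (pd (i + pick (iniSet n x j)), lb x 0 j, false, lh x 0 j) := by
  unfold ext
  rw [if_pos (show (i, j).1 < 0 from hi), if_neg hv]

private theorem ext_mid (n : ℕ) (i j : ℤ) (h0 : 0 ≤ i) (hn : i < n) : ext n x (i, j) = x (i, j) := by
  unfold ext
  rw [if_neg (show ¬ (i, j).1 < 0 from not_lt.2 h0), if_pos (show (i, j).1 < (n : ℤ) from hn)]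

private theorem ext_right (n : ℕ) (i j : ℤ) (hi : (n : ℤ) ≤ i) :
    ext n x (i, j) = (pd (i + pick (finSet n x j)), lb x ((n : ℤ) - 1) j, false, lh x ((n : ℤ) - 1) j) := by
  unfold ext
  rw [if_neg (show ¬ (i, j).1 < 0 from not_lt.2 (by have : (0 : ℤ) ≤ n := Int.natCast_nonneg n; exact this.trans hi)),
    if_neg (show ¬ (i, j).1 < (n : ℤ) from not_lt.2 hi)]

theorem ext_rowWord (hx : Rules φ x) (n : ℕ) (hn : 1 ≤ n) (i j : ℤ) (l : ℕ)
    (h : ∀ s : ℕ, 0 < s → s < l → lv (ext n x) (i + s) j = false) :
    ∃ c : ℤ, ∀ s : ℕ, s < l → la (ext n x) (i + s) j = pd (i + s + c) := by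
  have hmemf := pick_mem (finSet_nonempty hx n j)
  have hmemi := pick_mem (iniSet_nonempty hx n j)
  have hn' : (1 : ℤ) ≤ n := by exact_mod_cast hn
  have hlv : ∀ i' : ℤ, 0 ≤ i' → i' < n → i < i' → i' < i + l → lv x i' j = false := by
    intro i' h0 h1 h2 h3
    obtain ⟨s, hs⟩ : ∃ s : ℕ, i' = i + s := ⟨(i' - i).toNat, by omega⟩
    have h4 := h s (by omega) (by omega)
    rw [← hs] at h4
    unfold lv at h4 ⊢
    rwa [ext_mid n i' j h0 h1] at h4
  by_cases h1 : (n : ℤ) ≤ i
  · refine ⟨pick (finSet n x j), fun s hs => ?_⟩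
    unfold la
    rw [ext_right n (i + s) j (by omega)]
  by_cases h2 : 0 ≤ i
  · by_cases h3 : i + l ≤ n
    · obtain ⟨c, hc⟩ := hx.rowWord i j l
        (fun s hs hsl => hlv (i + s) (by omega) (by omega) (by omega) (by omega))
      refine ⟨c, fun s hs => ?_⟩
      rw [← hc s hs]
      unfold la
      rw [ext_mid n (i + s) j (by omega) (by omega)]
    · refine ⟨pick (finSet n x j), fun s hs => ?_⟩
      by_cases h4 : (n : ℤ) ≤ i + s
      · unfold la
        rw [ext_right n (i + s) j h4]
      · have h5 := hmemf (i + s) (by omega) (by omega)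
          (fun i' h5 h6 => hlv i' (by omega) h6 (by omega) (by omega))
        rw [← h5]
        unfold la
        rw [ext_mid n (i + s) j (by omega) (by omega)]
  · by_cases h3 : i + l ≤ 0
    · by_cases hv : lv x 0 j = true
      · refine ⟨0, fun s hs => ?_⟩
        unfold la
        rw [ext_neg_t n (i + s) j (by omega) hv, add_zero]
      · refine ⟨pick (iniSet n x j), fun s hs => ?_⟩
        unfold la
        rw [ext_neg_f n (i + s) j (by omega) hv]
    · have hv0 : lv x 0 j = false := hlv 0 le_rfl (by omega) (by omega) (by omega)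
      have hv : ¬ lv x 0 j = true := by
        rw [hv0]
        exact Bool.false_ne_true
      refine ⟨pick (iniSet n x j), fun s hs => ?_⟩
      by_cases h4 : i + s < 0
      · unfold la
        rw [ext_neg_f n (i + s) j h4 hv]
      · by_cases h5 : i + s < n
        · have h6 := hmemi (i + s) (by omega) h5
            (fun i' h6 h7 => hlv i' (by omega) (by omega) (by omega) (by omega))
          rw [← h6]
          unfold la
          rw [ext_mid n (i + s) j (by omega) h5]
        · have h6 := finSet_eq_iniSet (x := x) n j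
            (fun i' h6 h7 => hlv i' (by omega) h7 (by omega) (by omega))
          unfold la
          rw [ext_right n (i + s) j (by omega), h6]

theorem ext_colWord (hx : Rules φ x) (n : ℕ) (hn : 1 ≤ n) (i j : ℤ) (l : ℕ)
    (h : ∀ s : ℕ, 0 < s → s < l → lh (ext n x) i (j + s) = false) :
    ∃ c : ℤ, ∀ s : ℕ, s < l → lb (ext n x) i (j + s) = pd (j + s + c) := by
  have hn' : (1 : ℤ) ≤ n := by exact_mod_cast hn
  by_cases h1 : (n : ℤ) ≤ i
  · obtain ⟨c, hc⟩ := hx.colWord ((n : ℤ) - 1) j l (fun s hs hsl => by
      have h2 := h s hs hsl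
      unfold lh at h2
      rw [ext_right n i (j + s) h1] at h2
      exact h2)
    refine ⟨c, fun s hs => ?_⟩
    rw [← hc s hs]
    unfold lb
    rw [ext_right n i (j + s) h1]
    rfl
  by_cases h2 : 0 ≤ i
  · obtain ⟨c, hc⟩ := hx.colWord i j l (fun s hs hsl => by
      have h3 := h s hs hsl
      unfold lh at h3 ⊢
      rwa [ext_mid n i (j + s) h2 (by omega)] at h3)
    refine ⟨c, fun s hs => ?_⟩
    rw [← hc s hs]
    unfold lb
    rw [ext_mid n i (j + s) h2 (by omega)]
  · have hi : i < 0 := by omega
    have key : ∀ j' : ℤ, lh (ext n x) i j' = false →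
        lv x 0 j' = lv x 0 (j' - 1) ∧ (lv x 0 j' = false → lh x 0 j' = false) := by
      intro j' hj
      by_cases hv : lv x 0 j' = true
      · unfold lh at hj
        rw [ext_neg_t n i j' hi hv] at hj
        refine ⟨?_, fun h3 => absurd hv (by rw [h3]; exact Bool.false_ne_true)⟩
        by_contra hne
        have hv1 : lv x 0 (j' - 1) = false := by
          rw [hv] at hne
          cases h5 : lv x 0 (j' - 1)
          · rfl
          · exact absurd h5.symm hne
        have hj2 : (lh x 0 j' && !(lv x 0 (j' - 1))) = false := hj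
        rw [hv1, Bool.not_false, Bool.and_true] at hj2
        rcases hx.junction 0 j' with h4 | h4 | h4
        · rw [hv1] at h4
          exact absurd h4.2 Bool.false_ne_true
        · rw [hj2] at h4
          exact absurd h4.1 Bool.false_ne_true
        · rw [hv] at h4
          exact absurd h4.1 (by decide)
      · unfold lh at hj
        rw [ext_neg_f n i j' hi hv] at hj
        have hj2 : lh x 0 j' = false := hj
        have hv0 : lv x 0 j' = false := by
          cases h5 : lv x 0 j'
          · rfl
          · exact absurd h5 hv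
        exact ⟨by rw [hv0, lv_zero_eq hx j' hj2 hv0], fun _ => hj2⟩
    have hconst : ∀ s : ℕ, s < l → lv x 0 (j + s) = lv x 0 j := by
      intro s
      induction s with
      | zero =>
        intro _
        rw [Nat.cast_zero, add_zero]
      | succ s ih =>
        intro hs
        have h3 := (key (j + ((s + 1 : ℕ) : ℤ)) (h (s + 1) (Nat.succ_pos s) hs)).1
        rw [h3, ← ih (by omega)]
        congr 1
        push_cast
        ring
    by_cases hv : lv x 0 j = true
    · refine ⟨0, fun s hs => ?_⟩
      unfold lb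
      rw [ext_neg_t n i (j + s) hi (by rw [hconst s hs]; exact hv), add_zero]
    · have hv0 : lv x 0 j = false := by
        cases h5 : lv x 0 j
        · rfl
        · exact absurd h5 hv
      obtain ⟨c, hc⟩ := hx.colWord 0 j l (fun s hs hsl =>
        (key (j + s) (h s hs hsl)).2 (by rw [hconst s hsl]; exact hv0))
      refine ⟨c, fun s hs => ?_⟩
      rw [← hc s hs]
      unfold lb
      rw [ext_neg_f n i (j + s) hi (by rw [hconst s hs]; exact hv)]
      rfl

end Pool.Agent.Helper59.SH
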