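import Pool.Agent.Helper59.SH.GlueRow

/-!
# SH-12  Gluing: all the rules

Proof. `row`: `glued_row`. All the columns of `glued n k y₁ y₂` are columns of `y₁` or `y₂` up to the value of `v` (true in the whole
column `c = n + k/2`): `col`, `colWord`, `rowConst` (these do not involve `v`). `rowWord`: an interval with `v = 0` at all the
cells but the first one lies in `(-∞, c)` (then `y₁`) or in `[c, ∞)` (then `y₂`, moved; the first cell may be `c`; the shift changes by
`n + k`). `colConst` at `i = c`: `v` is true; at `i < c`: `y₁`; at `i > c`: `i - 1 ≥ c`, `y₂` (the `b` at `c` is the one of `y₂`).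
`junction` at `i = c`: first case; `i < c`: `y₁`; `i > c`: `y₂` (at `i = c + 1` the left `h` is the `h` of `y₂` at `c`).
-/

set_option autoImplicit false

open Filter Topology

namespace Pool.Agent.Helper59.SH

private theorem la_lt {n k : ℕ} {y₁ y₂ : ℤ × ℤ → Letter} {i j : ℤ} (h : i < ((n + k / 2 : ℕ) : ℤ)) :
    la (glued n k y₁ y₂) i j = la y₁ i j := by
  unfold la glued
  simp only [if_pos h]

private theorem la_ge {n k : ℕ} {y₁ y₂ : ℤ × ℤ → Letter} {i j : ℤ} (h : ¬ i < ((n + k / 2 : ℕ) : ℤ)) :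
    la (glued n k y₁ y₂) i j = la y₂ (i - ((n + k : ℕ) : ℤ)) j := by
  unfold la glued
  simp only [if_neg h]
  split_ifs <;> rfl

private theorem lb_lt {n k : ℕ} {y₁ y₂ : ℤ × ℤ → Letter} {i j : ℤ} (h : i < ((n + k / 2 : ℕ) : ℤ)) :
    lb (glued n k y₁ y₂) i j = lb y₁ i j := by
  unfold lb glued
  simp only [if_pos h]

private theorem lb_ge {n k : ℕ} {y₁ y₂ : ℤ × ℤ → Letter} {i j : ℤ} (h : ¬ i < ((n + k / 2 : ℕ) : ℤ)) :
    lb (glued n k y₁ y₂) i j = lb y₂ (i - ((n + k : ℕ) : ℤ)) j := by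
  unfold lb glued
  simp only [if_neg h]
  split_ifs <;> rfl

private theorem lh_lt {n k : ℕ} {y₁ y₂ : ℤ × ℤ → Letter} {i j : ℤ} (h : i < ((n + k / 2 : ℕ) : ℤ)) :
    lh (glued n k y₁ y₂) i j = lh y₁ i j := by
  unfold lh glued
  simp only [if_pos h]

private theorem lh_ge {n k : ℕ} {y₁ y₂ : ℤ × ℤ → Letter} {i j : ℤ} (h : ¬ i < ((n + k / 2 : ℕ) : ℤ)) :
    lh (glued n k y₁ y₂) i j = lh y₂ (i - ((n + k : ℕ) : ℤ)) j := by
  unfold lh glued
  simp only [if_neg h]
  split_ifs <;> rfl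

private theorem lv_lt {n k : ℕ} {y₁ y₂ : ℤ × ℤ → Letter} {i j : ℤ} (h : i < ((n + k / 2 : ℕ) : ℤ)) :
    lv (glued n k y₁ y₂) i j = lv y₁ i j := by
  unfold lv glued
  simp only [if_pos h]

private theorem lv_eq {n k : ℕ} {y₁ y₂ : ℤ × ℤ → Letter} {i j : ℤ} (h : i = ((n + k / 2 : ℕ) : ℤ)) :
    lv (glued n k y₁ y₂) i j = true := by
  unfold lv glued
  simp only [if_neg (not_lt.2 h.ge), if_pos h]

private theorem lv_gt {n k : ℕ} {y₁ y₂ : ℤ × ℤ → Letter} {i j : ℤ} (h : ((n + k / 2 : ℕ) : ℤ) < i) :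
    lv (glued n k y₁ y₂) i j = lv y₂ (i - ((n + k : ℕ) : ℤ)) j := by
  unfold lv glued
  simp only [if_neg (not_lt.2 h.le), if_neg h.ne']

theorem rules_glued {f φ : ℕ → ℕ} (hφ : IsPhi f φ) {y₁ y₂ : ℤ × ℤ → Letter}
    (h₁ : Rules φ y₁) (h₂ : Rules φ y₂) (n k : ℕ) (hf : 1 ≤ f n) (hk : f n ≤ k)
    (ho₁ : ∀ i j : ℤ, (i < 0 ∨ (n : ℤ) ≤ i) → lv y₁ i j = false)
    (ho₂ : ∀ i j : ℤ, (i < 0 ∨ (n : ℤ) ≤ i) → lv y₂ i j = false) :
    Rules φ (glued n k y₁ y₂) := by
  refine ⟨fun i j l => glued_row hφ h₁ h₂ n k hf hk ho₁ ho₂ i j l, ?_, ?_, ?_, ?_, ?_, ?_⟩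
  · intro i j l
    by_cases h : i < ((n + k / 2 : ℕ) : ℤ)
    · simp only [lh_lt h]
      exact h₁.col i j l
    · simp only [lh_ge h]
      exact h₂.col _ j l
  · intro i j l hl
    by_cases h : i < ((n + k / 2 : ℕ) : ℤ)
    · have hil : i + l ≤ ((n + k / 2 : ℕ) : ℤ) := by
        by_contra hcon
        push Not at hcon
        have h3 := hl ((((n + k / 2 : ℕ) : ℤ) - i).toNat) (by omega) (by omega)
        rw [lv_eq (by omega)] at h3
        exact absurd h3 (by decide)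
      obtain ⟨c, hc⟩ := h₁.rowWord i j l (fun s hs hs' => by
        have := hl s hs hs'
        rwa [lv_lt (by omega)] at this)
      refine ⟨c, fun s hs => ?_⟩
      rw [la_lt (by omega)]
      exact hc s hs
    · obtain ⟨c, hc⟩ := h₂.rowWord (i - ((n + k : ℕ) : ℤ)) j l (fun s hs hs' => by
        have := hl s hs hs'
        rw [lv_gt (by omega)] at this
        rwa [show i - ((n + k : ℕ) : ℤ) + s = i + s - ((n + k : ℕ) : ℤ) by ring])
      refine ⟨c - ((n + k : ℕ) : ℤ), fun s hs => ?_⟩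
      rw [la_ge (by omega)]
      have := hc s hs
      rw [show i - ((n + k : ℕ) : ℤ) + s = i + s - ((n + k : ℕ) : ℤ) by ring] at this
      rw [this]
      congr 1
      ring
  · intro i j l hl
    by_cases h : i < ((n + k / 2 : ℕ) : ℤ)
    · simp only [lh_lt h] at hl
      simp only [lb_lt h]
      exact h₁.colWord i j l hl
    · simp only [lh_ge h] at hl
      simp only [lb_ge h]
      exact h₂.colWord _ j l hl
  · intro i j hl
    by_cases h : i < ((n + k / 2 : ℕ) : ℤ)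
    · rw [lh_lt h] at hl
      rw [la_lt h, la_lt h]
      exact h₁.rowConst i j hl
    · rw [lh_ge h] at hl
      rw [la_ge h, la_ge h]
      exact h₂.rowConst _ j hl
  · intro i j hl
    rcases lt_trichotomy i ((n + k / 2 : ℕ) : ℤ) with h | h | h
    · rw [lv_lt h] at hl
      rw [lb_lt h, lb_lt (by omega)]
      exact h₁.colConst i j hl
    · rw [lv_eq h] at hl
      exact absurd hl (by decide)
    · rw [lv_gt h] at hl
      rw [lb_ge (by omega), lb_ge (by omega)]
      have := h₂.colConst _ j hl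
      rwa [show i - ((n + k : ℕ) : ℤ) - 1 = i - 1 - ((n + k : ℕ) : ℤ) by ring] at this
  · intro i j
    rcases lt_trichotomy i ((n + k / 2 : ℕ) : ℤ) with h | h | h
    · rw [lv_lt h, lv_lt h, lh_lt h, lh_lt (by omega)]
      exact h₁.junction i j
    · left
      exact ⟨lv_eq h, lv_eq h⟩
    · rw [lv_gt h, lv_gt h, lh_ge (by omega), lh_ge (by omega)]
      have := h₂.junction (i - ((n + k : ℕ) : ℤ)) j
      rwa [show i - ((n + k : ℕ) : ℤ) - 1 = i - 1 - ((n + k : ℕ) : ℤ) by ring] at this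

end Pool.Agent.Helper59.SH
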