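import Pool.Agent.Helper59.SH.Defs

/-!
# SH-06  Transposition

Proof. `la (tr x) i j = lb x j i`, `lb (tr x) i j = la x j i`, `lv (tr x) i j = lh x j i`, `lh (tr x) i j = lv x j i` by `rfl`;
the rules are exchanged in pairs.
-/

set_option autoImplicit false

open Filter Topology

namespace Pool.Agent.Helper59.SH

theorem tr_tr (x : ℤ × ℤ → Letter) : tr (tr x) = x := by
  funext m
  rfl

theorem rules_tr {φ : ℕ → ℕ} {x : ℤ × ℤ → Letter} (hx : Rules φ x) : Rules φ (tr x) where
  row := fun i j l => hx.col j i l
  col := fun i j l => hx.row j i l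
  rowWord := fun i j l h => hx.colWord j i l h
  colWord := fun i j l h => hx.rowWord j i l h
  rowConst := fun i j h => hx.colConst j i h
  colConst := fun i j h => hx.rowConst j i h
  junction := fun i j => by
    rcases hx.junction j i with h | h | h
    · exact Or.inr (Or.inl h)
    · exact Or.inl h
    · exact Or.inr (Or.inr ⟨h.2.2.1, h.2.2.2, h.1, h.2.1⟩)

end Pool.Agent.Helper59.SH
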