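import Pool.Agent.Helper59.SH.ExtCount
import Pool.Agent.Helper59.SH.ExtWord
import Pool.Agent.Helper59.SH.ExtLocal
import Pool.Agent.Helper59.SH.Glue
import Pool.Agent.Helper59.SH.Sub
import Pool.Agent.Helper59.SH.Tr

/-!
# SH-13  The block gluing function

Proof. `rules_ext`: assemble. `strip_glue`: `glued n k (ext n x₁) (ext n x₂)` (`n ≥ 1`); on `0 ≤ i < n` it is `x₁` (`n ≤ c`), and at
`i + (n + k)`, `0 ≤ i < n`, it is `x₂` (`c < n + k` as `k ≥ 1`). `glues_H`: `p = block n x₁`, `q = block n x₂`; for `n = 0` any point works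
(`Fin 0` is empty). `glues_V`: transpose: apply `strip_glue` to `tr x₁`, `tr x₂` and transpose the result.
`gluing_le`: `gluing X n = max (gluingH X n) (gluingV X n)`, infima over the `k` with `GluesH X n k` resp. `GluesV X n k`; take `k = f n`
(`iInf₂_le`).
-/

set_option autoImplicit false

open Filter Topology

namespace Pool.Agent.Helper59.SH

theorem rules_ext {φ : ℕ → ℕ} {x : ℤ × ℤ → Letter} (hx : Rules φ x) (n : ℕ) (hn : 1 ≤ n) :
    Rules φ (ext n x) where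
  row := fun i j l => ext_row hx n i j l
  col := fun i j l => ext_col hx n i j l
  rowWord := fun i j l h => ext_rowWord hx n hn i j l h
  colWord := fun i j l h => ext_colWord hx n hn i j l h
  rowConst := fun i j h => ext_rowConst hx n hn i j h
  colConst := fun i j h => ext_colConst hx n hn i j h
  junction := fun i j => ext_junction hx n hn i j

theorem strip_glue {f φ : ℕ → ℕ} (hφ : IsPhi f φ) (hf : ∀ n, 1 ≤ f n) {x₁ x₂ : ℤ × ℤ → Letter}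
    (h₁ : Rules φ x₁) (h₂ : Rules φ x₂) (n k : ℕ) (hn : 1 ≤ n) (hk : f n ≤ k) :
    ∃ x, Rules φ x ∧ (∀ i j : ℤ, 0 ≤ i → i < n → x (i, j) = x₁ (i, j)) ∧
      (∀ i j : ℤ, 0 ≤ i → i < n → x (i + ((n + k : ℕ) : ℤ), j) = x₂ (i, j)) := by
  have hfn := hf n
  refine ⟨glued n k (ext n x₁) (ext n x₂), ?_, ?_, ?_⟩
  · exact rules_glued hφ (rules_ext h₁ n hn) (rules_ext h₂ n hn) n k hfn hk
      (fun i j h => lv_ext_out n i j h) (fun i j h => lv_ext_out n i j h)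
  · intro i j h0 h1
    have hlt : i < ((n + k / 2 : ℕ) : ℤ) := by push_cast; omega
    unfold glued
    rw [if_pos hlt]
    exact ext_in n i j h0 h1
  · intro i j h0 h1
    have hnot : ¬ (i + ((n + k : ℕ) : ℤ) < ((n + k / 2 : ℕ) : ℤ)) := by push_cast; omega
    have hne : ¬ (i + ((n + k : ℕ) : ℤ) = ((n + k / 2 : ℕ) : ℤ)) := by push_cast; omega
    unfold glued
    rw [if_neg hnot, if_neg hne]
    have hsub : (i + ((n + k : ℕ) : ℤ)) - ((n + k : ℕ) : ℤ) = i := by ring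
    show ext n x₂ ((i + ((n + k : ℕ) : ℤ)) - ((n + k : ℕ) : ℤ), j) = x₂ (i, j)
    rw [hsub]
    exact ext_in n i j h0 h1

theorem gluing_le {f φ : ℕ → ℕ} (hφ : IsPhi f φ) (hf : ∀ n, 1 ≤ f n) (n : ℕ) :
    Helper60.BlockGluing.gluing (XX φ) n ≤ (f n : ℕ∞) := by
  unfold Helper60.BlockGluing.gluing
  refine max_le ?_ ?_
  · unfold Helper60.BlockGluing.gluingH
    refine iInf₂_le (f n) ?_
    intro k hk p hp q hq
    obtain ⟨x₁, hx₁, rfl⟩ := hp
    obtain ⟨x₂, hx₂, rfl⟩ := hq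
    rcases Nat.eq_zero_or_pos n with h0 | hn
    · subst h0
      exact ⟨x₁, hx₁, rfl, funext fun m => m.1.elim0⟩
    · obtain ⟨x, hx, ha, hb⟩ := strip_glue hφ hf hx₁ hx₂ n k hn hk
      refine ⟨x, hx, ?_, ?_⟩
      · funext m
        exact ha _ _ (by positivity) (by exact_mod_cast m.1.isLt)
      · funext m
        have := hb ((m.1 : ℕ) : ℤ) ((m.2 : ℕ) : ℤ) (by positivity) (by exact_mod_cast m.1.isLt)
        show x ((((m.1 : ℕ) : ℤ), ((m.2 : ℕ) : ℤ)) + (((n + k : ℕ) : ℤ), 0)) =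
          x₂ (((m.1 : ℕ) : ℤ), ((m.2 : ℕ) : ℤ))
        rw [← this, Prod.mk_add_mk, add_zero]
  · unfold Helper60.BlockGluing.gluingV
    refine iInf₂_le (f n) ?_
    intro k hk p hp q hq
    obtain ⟨x₁, hx₁, rfl⟩ := hp
    obtain ⟨x₂, hx₂, rfl⟩ := hq
    rcases Nat.eq_zero_or_pos n with h0 | hn
    · subst h0
      exact ⟨x₁, hx₁, rfl, funext fun m => m.1.elim0⟩
    · obtain ⟨x, hx, ha, hb⟩ := strip_glue hφ hf (rules_tr hx₁) (rules_tr hx₂) n k hn hk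
      refine ⟨tr x, rules_tr hx, ?_, ?_⟩
      · funext m
        have := ha ((m.2 : ℕ) : ℤ) ((m.1 : ℕ) : ℤ) (by positivity) (by exact_mod_cast m.2.isLt)
        show tr x (((m.1 : ℕ) : ℤ), ((m.2 : ℕ) : ℤ)) = x₁ (((m.1 : ℕ) : ℤ), ((m.2 : ℕ) : ℤ))
        unfold tr
        show (((x (((m.2 : ℕ) : ℤ), ((m.1 : ℕ) : ℤ))).2.1, (x (((m.2 : ℕ) : ℤ), ((m.1 : ℕ) : ℤ))).1,
          (x (((m.2 : ℕ) : ℤ), ((m.1 : ℕ) : ℤ))).2.2.2, (x (((m.2 : ℕ) : ℤ), ((m.1 : ℕ) : ℤ))).2.2.1)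
            : Letter) = _
        rw [this]
        rfl
      · funext m
        have := hb ((m.2 : ℕ) : ℤ) ((m.1 : ℕ) : ℤ) (by positivity) (by exact_mod_cast m.2.isLt)
        show tr x ((((m.1 : ℕ) : ℤ), ((m.2 : ℕ) : ℤ)) + (0, ((n + k : ℕ) : ℤ))) =
          x₂ (((m.1 : ℕ) : ℤ), ((m.2 : ℕ) : ℤ))
        rw [Prod.mk_add_mk, add_zero]
        unfold tr
        show (((x (((m.2 : ℕ) : ℤ) + ((n + k : ℕ) : ℤ), ((m.1 : ℕ) : ℤ))).2.1,
          (x (((m.2 : ℕ) : ℤ) + ((n + k : ℕ) : ℤ), ((m.1 : ℕ) : ℤ))).1,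
          (x (((m.2 : ℕ) : ℤ) + ((n + k : ℕ) : ℤ), ((m.1 : ℕ) : ℤ))).2.2.2,
          (x (((m.2 : ℕ) : ℤ) + ((n + k : ℕ) : ℤ), ((m.1 : ℕ) : ℤ))).2.2.1) : Letter) = _
        rw [this]
        rfl

end Pool.Agent.Helper59.SH
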