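import Pool.Agent.Helper59.SH.Phi
import Pool.Agent.Helper59.SH.Gluing
import Pool.Agent.Helper59.SH.Aper
import Pool.Agent.Helper59.SH.Entropy

/-!
# SH-18  The theorem
-/

set_option autoImplicit false

open Filter Topology

namespace Pool.Agent.Helper59.SH

open Helper60.BlockGluing in
theorem sharp (f : ℕ → ℕ) (hf : Monotone f) (h1 : ∀ n, 1 ≤ f n)
    (hdiv : ∑' k : ℕ, (f (2 ^ k) : ENNReal) / 2 ^ k = ⊤) :
    ∃ X : Set (ℤ × ℤ → Bool × Bool × Bool × Bool), IsSubshift X ∧ X.Nonempty ∧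
      (∀ x ∈ X, ∀ v : ℤ × ℤ, v ≠ 0 → shift v x ≠ x) ∧ HasEntropy X 0 ∧
      ∀ n, gluing X n ≤ (f n : ℕ∞) := by
  obtain ⟨φ, hφ⟩ := exists_phi f hf h1 hdiv
  exact ⟨XX φ, isSubshift_XX φ, nonempty_XX φ, fun x hx v hv => aperiodic hφ hx v hv,
    hasEntropy_zero hφ, fun n => gluing_le hφ h1 n⟩

end Pool.Agent.Helper59.SH
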