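import Pool.Agent.Helper59.SH.Defs

/-!
# SH-11  Gluing: the counting rule for the rows

Proof. Let `c = n + k/2`, `1 ≤ f n ≤ k`, so `n ≤ c < n + k`. In the row `j` of `glued n k y₁ y₂` the cells with `v` are: those of
`y₁` in `[0, n)`, the cell `c`, those of `y₂` moved, in `[n+k, 2n+k)` (outside these `v` is false by `ho₁`, `ho₂`; note `c < n + k`).
Let `I = [i, i+l)`, `I₁ = I ∩ [0, n)`, `I₂ = I ∩ [n+k, 2n+k)`, `s = |I₁|`, `t = |I₂|`. The number of `v` in `I₁` is at most `φ s` and in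
`I₂` at most `φ t` (`Rules.row` for the intervals `I₁`, `I₂`, moved by `n + k`). If `c ∉ I` then one of `s`, `t` is 0 and the number is
`≤ φ s ≤ φ l` or `≤ φ t ≤ φ l` (`φ 0 = 0`). If `c ∈ I` it is `≤ φ s + φ t + 1`, and: `s = t = 0`: `1 ≤ φ l` as `l ≥ 1`;
`s ≥ 1`, `t = 0`: `I` contains `I₁`, `[n, c]`, so `l ≥ s + k/2 + 1`: `IsPhi.right`; `s = 0`, `t ≥ 1`: `I` contains `[c, n+k)` and `I₂`, so
`l ≥ t + (k - k/2)`: `IsPhi.left`; `s, t ≥ 1`: `l ≥ s + t + k`: `IsPhi.both`; `IsPhi.mono`.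
-/

set_option autoImplicit false

open Filter Topology

namespace Pool.Agent.Helper59.SH

theorem h86_cnt (g : ℤ → Bool) (i i' d : ℤ) (l s1 : ℕ) :
    ((Finset.range l).filter (fun s : ℕ => i' ≤ i + s ∧ i + s < i' + s1 ∧
      g (i + s + d) = true)).card ≤
      ((Finset.range s1).filter (fun s : ℕ => g (i' + d + s) = true)).card := by
  refine Finset.card_le_card_of_injOn (fun s : ℕ => (i + s - i').toNat) ?_ ?_
  · intro s hs
    have hs := Finset.mem_coe.mp hs
    rw [Finset.mem_filter] at hs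
    obtain ⟨_, h1, h2, h3⟩ := hs
    apply Finset.mem_coe.mpr
    rw [Finset.mem_filter, Finset.mem_range]
    change (i + s - i').toNat < s1 ∧ g (i' + d + ((i + s - i').toNat : ℕ)) = true
    refine ⟨by omega, ?_⟩
    have h4 : i' + d + ((i + s - i').toNat : ℕ) = i + s + d := by omega
    rw [h4]
    exact h3
  · intro s hs t ht hst
    have hs := Finset.mem_coe.mp hs
    have ht := Finset.mem_coe.mp ht
    rw [Finset.mem_filter] at hs ht
    have hst : (i + s - i').toNat = (i + t - i').toNat := hst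
    omega

theorem glued_row {f φ : ℕ → ℕ} (hφ : IsPhi f φ) {y₁ y₂ : ℤ × ℤ → Letter}
    (h₁ : Rules φ y₁) (h₂ : Rules φ y₂) (n k : ℕ) (hf : 1 ≤ f n) (hk : f n ≤ k)
    (ho₁ : ∀ i j : ℤ, (i < 0 ∨ (n : ℤ) ≤ i) → lv y₁ i j = false)
    (ho₂ : ∀ i j : ℤ, (i < 0 ∨ (n : ℤ) ≤ i) → lv y₂ i j = false) (i j : ℤ) (l : ℕ) :
    ((Finset.range l).filter (fun s : ℕ => lv (glued n k y₁ y₂) (i + s) j = true)).card ≤ φ l := by
  classical
  obtain ⟨s1, hs1⟩ : ∃ s1 : ℕ, s1 = (min (i + l) (n : ℤ) - max i 0).toNat := ⟨_, rfl⟩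
  obtain ⟨s2, hs2⟩ : ∃ s2 : ℕ, s2 =
    (min (i + l) (2 * n + k : ℤ) - max i (n + k : ℤ)).toNat := ⟨_, rfl⟩
  obtain ⟨c, hc⟩ : ∃ c : ℤ, c = ((n + k / 2 : ℕ) : ℤ) := ⟨_, rfl⟩
  have hlt : ∀ m : ℤ, m < c → lv (glued n k y₁ y₂) m j = lv y₁ m j := by
    intro m hm
    unfold lv glued
    simp only
    rw [if_pos (by rw [← hc]; exact hm)]
  have hgt : ∀ m : ℤ, c < m → lv (glued n k y₁ y₂) m j =
      lv y₂ (m - ((n + k : ℕ) : ℤ)) j := by
    intro m hm
    unfold lv glued
    simp only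
    rw [if_neg (by rw [← hc]; omega), if_neg (by rw [← hc]; omega)]
  set A := (Finset.range l).filter (fun s : ℕ => max i 0 ≤ i + s ∧ i + s < max i 0 + s1 ∧
      lv y₁ (i + s + 0) j = true) with hA
  set B := (Finset.range l).filter (fun s : ℕ => max i (n + k : ℤ) ≤ i + s ∧
      i + s < max i (n + k : ℤ) + s2 ∧ lv y₂ (i + s + -(n + k : ℤ)) j = true) with hB
  set D := (Finset.range l).filter (fun s : ℕ => i + s = c) with hD
  have hsub : (Finset.range l).filter (fun s : ℕ => lv (glued n k y₁ y₂) (i + s) j = true) ⊆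
      A ∪ (B ∪ D) := by
    intro s hs
    rw [Finset.mem_filter] at hs
    obtain ⟨hs3, hs4⟩ := hs
    have hl := Finset.mem_range.mp hs3
    rw [Finset.mem_union, Finset.mem_union]
    rcases lt_trichotomy (i + (s : ℤ)) c with h | h | h
    · left
      rw [hlt _ h] at hs4
      have h5 : ¬ (i + (s : ℤ) < 0 ∨ (n : ℤ) ≤ i + s) := by
        intro h6
        rw [ho₁ _ _ h6] at hs4
        exact absurd hs4 Bool.false_ne_true
      rw [hA, Finset.mem_filter]
      refine ⟨hs3, by omega, by omega, ?_⟩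
      rw [add_zero]
      exact hs4
    · right; right
      rw [hD, Finset.mem_filter]
      exact ⟨hs3, h⟩
    · right; left
      rw [hgt _ h] at hs4
      have h5 : ¬ (i + (s : ℤ) - ((n + k : ℕ) : ℤ) < 0 ∨
          (n : ℤ) ≤ i + s - ((n + k : ℕ) : ℤ)) := by
        intro h6
        rw [ho₂ _ _ h6] at hs4
        exact absurd hs4 Bool.false_ne_true
      rw [hB, Finset.mem_filter]
      refine ⟨hs3, by omega, by omega, ?_⟩
      have h6 : i + (s : ℤ) + -(n + k : ℤ) = i + s - ((n + k : ℕ) : ℤ) := by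
        push_cast
        ring
      rw [h6]
      exact hs4
  have hcA : A.card ≤ φ s1 :=
    (h86_cnt (fun m => lv y₁ m j) i (max i 0) 0 l s1).trans (h₁.row _ _ _)
  have hcB : B.card ≤ φ s2 :=
    (h86_cnt (fun m => lv y₂ m j) i (max i (n + k : ℤ)) (-(n + k : ℤ)) l s2).trans (h₂.row _ _ _)
  have hcD : D.card ≤ 1 := by
    rw [Finset.card_le_one]
    intro a ha b hb
    rw [hD, Finset.mem_filter] at ha hb
    omega
  have htot := (Finset.card_le_card hsub).trans
    ((Finset.card_union_le _ _).trans (add_le_add_right (Finset.card_union_le B D) _))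
  have h0 := hφ.zero
  by_cases hcI : i ≤ c ∧ c < i + l
  · obtain ⟨hc1, hc2⟩ := hcI
    rcases Nat.eq_zero_or_pos s1 with h1 | h1 <;> rcases Nat.eq_zero_or_pos s2 with h2 | h2
    · rw [h1, h0] at hcA
      rw [h2, h0] at hcB
      have := hφ.pos l (by omega)
      omega
    · rw [h1, h0] at hcA
      have h3 := hφ.left n k s2 hk h2 (by omega)
      have h4 : φ (s2 + (k - k / 2)) ≤ φ l := hφ.mono (by omega)
      omega
    · rw [h2, h0] at hcB
      have h3 := hφ.right n k s1 hk (by omega)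
      have h4 : φ (s1 + k / 2 + 1) ≤ φ l := hφ.mono (by omega)
      omega
    · have h3 := hφ.both n k s1 s2 hk h1 (by omega) h2 (by omega)
      have h4 : φ (s1 + s2 + k) ≤ φ l := hφ.mono (by omega)
      omega
  · have hD0 : D.card = 0 := by
      rw [Finset.card_eq_zero, Finset.eq_empty_iff_forall_notMem]
      intro s hs
      rw [hD, Finset.mem_filter, Finset.mem_range] at hs
      exact hcI ⟨by omega, by omega⟩
    by_cases h3 : i + l ≤ c
    · have h4 : s2 = 0 := by omega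
      rw [h4, h0] at hcB
      have h5 : φ s1 ≤ φ l := hφ.mono (by omega)
      omega
    · have h4 : s1 = 0 := by omega
      rw [h4, h0] at hcA
      have h5 : φ s2 ≤ φ l := hφ.mono (by omega)
      omega

end Pool.Agent.Helper59.SH
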