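import Pool.Agent.Helper59.SH.Defs

/-!
# SH-01  The function Λ

Proof. `lam_zero`: empty sum. `lam_one`: the only term has `max 0 (2/2 - 1) = 0`. `le_lam`: `GG f` is monotone
(`f (m/2) - 2` is), so all the terms are nonnegative.
`lam_add`: put `ν k m = max 0 ((m+1)/2^k - 1)`; it is `0` iff `m < 2^k`, so the sum in `Lam f m` may be extended to `Icc 1 M`
for every `M ≥ m` (`2^k > k`). For `m = i + j + 1`: `ν k m ≤ ν k i + ν k j + (if 2^k ≤ m then 1 else 0)`, because for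
`2^k ≤ m` one has `(m+1)/2^k - 1 = ((i+1)/2^k - 1) + ((j+1)/2^k - 1) + 1`, and for `m < 2^k` the left side is `0`. Multiply by
`c_k = GG f (2^k) - GG f (2^(k-1)) ≥ 0` and sum over `1 ≤ k ≤ m`; `∑_{1 ≤ k, 2^k ≤ m} c_k` telescopes to
`GG f (2^K) - GG f 1 ≤ GG f m`, `K = Nat.log 2 m` (`GG f ≥ 0`).
-/

set_option autoImplicit false

open Filter Topology

namespace Pool.Agent.Helper59.SH

theorem gg_mono (f : ℕ → ℕ) (hf : Monotone f) : Monotone (GG f) := by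
  intro a b h
  unfold GG
  have h1 : f (a / 2) ≤ f (b / 2) := hf (Nat.div_le_div_right h)
  have h2 : ((f (a / 2) - 2 : ℕ) : ℝ) ≤ ((f (b / 2) - 2 : ℕ) : ℝ) := by
    exact_mod_cast Nat.sub_le_sub_right h1 2
  linarith

theorem gg_nonneg (f : ℕ → ℕ) (m : ℕ) : 0 ≤ GG f m := by
  unfold GG
  positivity

theorem lam_zero (f : ℕ → ℕ) : Lam f 0 = 0 := by
  unfold Lam
  simp

theorem lam_one (f : ℕ → ℕ) : Lam f 1 = 1 := by
  unfold Lam
  rw [Finset.Icc_self, Finset.sum_singleton]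
  have : max (0 : ℝ) ((((1 : ℕ) : ℝ) + 1) / 2 ^ 1 - 1) = 0 := by
    norm_num
  rw [this]
  simp

private noncomputable def cc (f : ℕ → ℕ) (k : ℕ) : ℝ := GG f (2 ^ k) - GG f (2 ^ (k - 1))

private noncomputable def nu (k m : ℕ) : ℝ := max 0 (((m : ℝ) + 1) / 2 ^ k - 1)

private theorem cc_nonneg (f : ℕ → ℕ) (hf : Monotone f) (k : ℕ) : 0 ≤ cc f k := by
  unfold cc
  have := gg_mono f hf (Nat.pow_le_pow_right (show 0 < 2 by norm_num) (Nat.sub_le k 1))
  linarith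

private theorem nu_nonneg (k m : ℕ) : 0 ≤ nu k m := le_max_left _ _

private theorem lam_def (f : ℕ → ℕ) (m : ℕ) :
    Lam f m = m + ∑ k ∈ Finset.Icc 1 m, cc f k * nu k m := rfl

theorem le_lam (f : ℕ → ℕ) (hf : Monotone f) (m : ℕ) : (m : ℝ) ≤ Lam f m := by
  rw [lam_def]
  have : 0 ≤ ∑ k ∈ Finset.Icc 1 m, cc f k * nu k m :=
    Finset.sum_nonneg fun k _ => mul_nonneg (cc_nonneg f hf k) (nu_nonneg k m)
  linarith

private theorem nu_zero {k m : ℕ} (h : m < 2 ^ k) : nu k m = 0 := by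
  unfold nu
  refine max_eq_left ?_
  have h1 : ((m : ℝ) + 1) ≤ 2 ^ k := by exact_mod_cast h
  have h2 : (0 : ℝ) < 2 ^ k := by positivity
  rw [sub_nonpos, div_le_one h2]
  exact h1

private theorem nu_of_le {k m : ℕ} (h : 2 ^ k ≤ m) : nu k m = ((m : ℝ) + 1) / 2 ^ k - 1 := by
  unfold nu
  refine max_eq_right ?_
  have h1 : ((2 : ℝ) ^ k) ≤ m := by exact_mod_cast h
  have h2 : (0 : ℝ) < 2 ^ k := by positivity
  rw [sub_nonneg, one_le_div h2]
  linarith

private theorem ext_sum (f : ℕ → ℕ) {m M : ℕ} (h : m ≤ M) :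
    ∑ k ∈ Finset.Icc 1 m, cc f k * nu k m = ∑ k ∈ Finset.Icc 1 M, cc f k * nu k m := by
  refine Finset.sum_subset (Finset.Icc_subset_Icc_right h) fun k hk hk' => ?_
  rw [Finset.mem_Icc] at hk hk'
  have h1 : m < k := by
    by_contra hc
    exact hk' ⟨hk.1, not_lt.mp hc⟩
  rw [nu_zero (lt_trans h1 k.lt_two_pow_self), mul_zero]

private theorem nu_add (k i j : ℕ) :
    nu k (i + j + 1) ≤ nu k i + nu k j + (if 2 ^ k ≤ i + j + 1 then 1 else 0) := by
  by_cases h : 2 ^ k ≤ i + j + 1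
  · rw [if_pos h, nu_of_le h]
    have h1 : ((i : ℝ) + 1) / 2 ^ k - 1 ≤ nu k i := le_max_right _ _
    have h2 : ((j : ℝ) + 1) / 2 ^ k - 1 ≤ nu k j := le_max_right _ _
    have h3 : (((i + j + 1 : ℕ) : ℝ) + 1) / 2 ^ k - 1 =
        (((i : ℝ) + 1) / 2 ^ k - 1) + (((j : ℝ) + 1) / 2 ^ k - 1) + 1 := by
      push_cast
      ring
    rw [h3]
    linarith
  · rw [if_neg h, nu_zero (not_le.mp h)]
    have h1 := nu_nonneg k i
    have h2 := nu_nonneg k j
    linarith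

private theorem tele (f : ℕ → ℕ) (K : ℕ) :
    ∑ k ∈ Finset.Icc 1 K, cc f k = GG f (2 ^ K) - GG f 1 := by
  induction K with
  | zero => simp
  | succ K ih =>
    rw [Finset.sum_Icc_succ_top (by omega), ih]
    unfold cc
    rw [Nat.add_sub_cancel]
    ring

private theorem ind_sum (f : ℕ → ℕ) (hf : Monotone f) (M : ℕ) (hM : 1 ≤ M) :
    ∑ k ∈ Finset.Icc 1 M, cc f k * (if 2 ^ k ≤ M then 1 else 0) ≤ GG f M := by
  have h1 : ∑ k ∈ Finset.Icc 1 M, cc f k * (if 2 ^ k ≤ M then (1 : ℝ) else 0) =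
      ∑ k ∈ Finset.Icc 1 (Nat.log 2 M), cc f k := by
    have h2 : ∀ k ∈ Finset.Icc 1 M, cc f k * (if 2 ^ k ≤ M then (1 : ℝ) else 0) =
        if 2 ^ k ≤ M then cc f k else 0 := by
      intro k _
      split <;> simp
    rw [Finset.sum_congr rfl h2, ← Finset.sum_filter]
    congr 1
    ext k
    rw [Finset.mem_filter, Finset.mem_Icc, Finset.mem_Icc]
    constructor
    · rintro ⟨⟨h3, _⟩, h5⟩
      exact ⟨h3, (Nat.le_log_iff_pow_le (by norm_num) (by omega)).mpr h5⟩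
    · rintro ⟨h3, h4⟩
      have h5 : 2 ^ k ≤ M := (Nat.le_log_iff_pow_le (by norm_num) (by omega)).mp h4
      exact ⟨⟨h3, le_trans k.lt_two_pow_self.le h5⟩, h5⟩
  rw [h1, tele]
  have h6 : GG f (2 ^ Nat.log 2 M) ≤ GG f M :=
    gg_mono f hf (Nat.pow_log_le_self 2 (by omega))
  have h7 := gg_nonneg f 1
  linarith

theorem lam_add (f : ℕ → ℕ) (hf : Monotone f) (i j : ℕ) :
    Lam f (i + j + 1) ≤ Lam f i + Lam f j + 1 + GG f (i + j + 1) := by
  have h0 : ∑ k ∈ Finset.Icc 1 (i + j + 1), cc f k * nu k (i + j + 1) ≤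
      ∑ k ∈ Finset.Icc 1 (i + j + 1), cc f k * nu k i +
      ∑ k ∈ Finset.Icc 1 (i + j + 1), cc f k * nu k j +
      ∑ k ∈ Finset.Icc 1 (i + j + 1), cc f k * (if 2 ^ k ≤ i + j + 1 then 1 else 0) := by
    rw [← Finset.sum_add_distrib, ← Finset.sum_add_distrib]
    refine Finset.sum_le_sum fun k _ => ?_
    rw [← mul_add, ← mul_add]
    exact mul_le_mul_of_nonneg_left (nu_add k i j) (cc_nonneg f hf k)
  have h1 := ind_sum f hf (i + j + 1) (by omega)
  rw [lam_def, lam_def, lam_def, ext_sum f (show i ≤ i + j + 1 by omega),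
    ext_sum f (show j ≤ i + j + 1 by omega)]
  push_cast at h0 h1 ⊢
  linarith

end Pool.Agent.Helper59.SH
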