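import Pool.Agent.Helper59.SH.Defs

/-!
# SH-02  Λ(m)/m → ∞

Proof. Let `g k = GG f (2^k) = (f (2^k/2) - 2)/4`, so `g (k+1) = (f (2^k) - 2 : ℕ)/4 ≥ (f (2^k) - 2)/4`; the `g k` are
nonnegative and nondecreasing. For `1 ≤ k`, `2^(k+1) ≤ m`: `(m+1)/2^k - 1 ≥ m/2^(k+1)`. Hence, for all `K` and all
`m ≥ 2^(K+1)` (then `K ≤ m`; all the other terms are `≥ 0`): `Lam f m / m ≥ ∑_{k=1}^K (g k - g (k-1))/2^(k+1)`. Abel summation:
`∑_{k=1}^K (g k - g (k-1))/2^(k+1) = g K/2^(K+1) - g 0/4 + ∑_{k=1}^{K-1} g k/2^(k+2) ≥ -g 0/4 + ∑_{k=1}^{K-1} g k/2^(k+2)`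
(or prove the inequality by induction on `K`). `∑ g (k+1)/2^(k+3) ≥ ∑ (f (2^k) - 2)/2^(k+5)`, and the partial sums of
`f (2^k)/2^k` are unbounded by `hdiv` (a bounded series of nonnegative reals is summable, and then the ENNReal sum is finite),
while `∑ 2/2^k` is bounded.
-/

set_option autoImplicit false

open Filter Topology

namespace Pool.Agent.Helper59.SH

private theorem gg_nonneg (f : ℕ → ℕ) (m : ℕ) : 0 ≤ GG f m := by
  unfold GG
  positivity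

private theorem gg_mono (f : ℕ → ℕ) (hf : Monotone f) {m n : ℕ} (h : m ≤ n) :
    GG f m ≤ GG f n := by
  unfold GG
  have h1 : f (m / 2) - 2 ≤ f (n / 2) - 2 :=
    Nat.sub_le_sub_right (hf (Nat.div_le_div_right h)) 2
  have h2 : ((f (m / 2) - 2 : ℕ) : ℝ) ≤ ((f (n / 2) - 2 : ℕ) : ℝ) := by exact_mod_cast h1
  linarith

private theorem abel (g : ℕ → ℝ) (K : ℕ) :
    ∑ k ∈ Finset.range K, (g (k + 1) - g k) / 2 ^ (k + 2) =
      g K / 2 ^ (K + 1) - g 0 / 2 + ∑ k ∈ Finset.range K, g k / 2 ^ (k + 2) := by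
  induction K with
  | zero => simp
  | succ K ih =>
    rw [Finset.sum_range_succ, Finset.sum_range_succ, ih]
    have h : (2 : ℝ) ^ (K + 1 + 1) = 2 ^ (K + 1) * 2 := pow_succ _ _
    rw [h]
    have h0 : (2 : ℝ) ^ (K + 1) ≠ 0 := by positivity
    field_simp
    ring

private theorem lam_lower (f : ℕ → ℕ) (hf : Monotone f) (K m : ℕ) (hm : 2 ^ (K + 1) ≤ m) :
    (∑ k ∈ Finset.range K, (GG f (2 ^ (k + 1)) - GG f (2 ^ k)) / 2 ^ (k + 2)) * m ≤ Lam f m := by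
  unfold Lam
  have hKm : K ≤ m := by
    have h1 : K < 2 ^ K := Nat.lt_two_pow_self
    have h2 : 2 ^ K ≤ 2 ^ (K + 1) := Nat.pow_le_pow_right (by norm_num) (by omega)
    omega
  have hnn : ∀ k, 0 ≤ (GG f (2 ^ k) - GG f (2 ^ (k - 1))) := fun k =>
    sub_nonneg.2 (gg_mono f hf (Nat.pow_le_pow_right (by norm_num) (by omega)))
  have hsub : ∑ k ∈ Finset.Icc 1 K, (GG f (2 ^ k) - GG f (2 ^ (k - 1))) *
      max 0 (((m : ℝ) + 1) / 2 ^ k - 1) ≤
      ∑ k ∈ Finset.Icc 1 m, (GG f (2 ^ k) - GG f (2 ^ (k - 1))) *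
      max 0 (((m : ℝ) + 1) / 2 ^ k - 1) := by
    refine Finset.sum_le_sum_of_subset_of_nonneg (Finset.Icc_subset_Icc_right hKm) ?_
    intro k _ _
    exact mul_nonneg (hnn k) (le_max_left _ _)
  have hre : ∑ k ∈ Finset.Icc 1 K, (GG f (2 ^ k) - GG f (2 ^ (k - 1))) *
      max 0 (((m : ℝ) + 1) / 2 ^ k - 1) =
      ∑ k ∈ Finset.range K, (GG f (2 ^ (k + 1)) - GG f (2 ^ k)) *
      max 0 (((m : ℝ) + 1) / 2 ^ (k + 1) - 1) := by
    have h := Finset.sum_Ico_add' (fun k => (GG f (2 ^ k) - GG f (2 ^ (k - 1))) *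
      max 0 (((m : ℝ) + 1) / 2 ^ k - 1)) 0 K 1
    rw [Finset.range_eq_Ico]
    refine Eq.trans ?_ h.symm
    refine Finset.sum_congr ?_ fun _ _ => rfl
    ext a
    simp only [Finset.mem_Icc, Finset.mem_Ico]
    omega
  have hle : (∑ k ∈ Finset.range K, (GG f (2 ^ (k + 1)) - GG f (2 ^ k)) / 2 ^ (k + 2)) * m ≤
      ∑ k ∈ Finset.range K, (GG f (2 ^ (k + 1)) - GG f (2 ^ k)) *
      max 0 (((m : ℝ) + 1) / 2 ^ (k + 1) - 1) := by
    rw [Finset.sum_mul]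
    refine Finset.sum_le_sum fun k hk => ?_
    rw [Finset.mem_range] at hk
    have h1 := hnn (k + 1)
    rw [Nat.add_sub_cancel] at h1
    have h2 : (m : ℝ) / 2 ^ (k + 2) ≤ max 0 (((m : ℝ) + 1) / 2 ^ (k + 1) - 1) := by
      refine le_trans ?_ (le_max_right _ _)
      have h3 : (2 : ℕ) ^ (k + 2) ≤ m :=
        (Nat.pow_le_pow_right (by norm_num) (by omega)).trans hm
      have h4 : (2 : ℝ) ^ (k + 2) ≤ m := by exact_mod_cast h3
      have h5 : (2 : ℝ) ^ (k + 2) = 2 ^ (k + 1) * 2 := pow_succ _ _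
      have h6 : (0 : ℝ) < 2 ^ (k + 1) := by positivity
      rw [h5] at h4 ⊢
      rw [div_sub_one h6.ne', div_le_div_iff₀ (by positivity) h6]
      nlinarith
    calc (GG f (2 ^ (k + 1)) - GG f (2 ^ k)) / 2 ^ (k + 2) * (m : ℝ) =
        (GG f (2 ^ (k + 1)) - GG f (2 ^ k)) * ((m : ℝ) / 2 ^ (k + 2)) := by ring
      _ ≤ _ := mul_le_mul_of_nonneg_left h2 h1
  have hm0 : (0 : ℝ) ≤ m := Nat.cast_nonneg m
  linarith

private theorem partial_unbounded (f : ℕ → ℕ)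
    (hdiv : ∑' k : ℕ, (f (2 ^ k) : ENNReal) / 2 ^ k = ⊤) (B : ℝ) :
    ∃ J : ℕ, B ≤ ∑ k ∈ Finset.range J, (f (2 ^ k) : ℝ) / 2 ^ k := by
  by_contra hcon
  push Not at hcon
  have h1 : ∀ k : ℕ, (f (2 ^ k) : ENNReal) / 2 ^ k = ENNReal.ofReal ((f (2 ^ k) : ℝ) / 2 ^ k) := by
    intro k
    rw [ENNReal.ofReal_div_of_pos (by positivity), ENNReal.ofReal_natCast,
      ENNReal.ofReal_pow (by norm_num), ENNReal.ofReal_ofNat]
  have h2 : ∑' k : ℕ, (f (2 ^ k) : ENNReal) / 2 ^ k ≤ ENNReal.ofReal B := by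
    rw [ENNReal.tsum_eq_iSup_nat]
    refine iSup_le fun J => ?_
    rw [Finset.sum_congr rfl (fun k _ => h1 k), ← ENNReal.ofReal_sum_of_nonneg
      (fun k _ => by positivity)]
    exact ENNReal.ofReal_le_ofReal (hcon J).le
  rw [hdiv, top_le_iff] at h2
  exact ENNReal.ofReal_ne_top h2

theorem lam_div (f : ℕ → ℕ) (hf : Monotone f)
    (hdiv : ∑' k : ℕ, (f (2 ^ k) : ENNReal) / 2 ^ k = ⊤) :
    Tendsto (fun m : ℕ => Lam f m / m) atTop atTop := by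
  rw [tendsto_atTop]
  intro B
  obtain ⟨J, hJ⟩ := partial_unbounded f hdiv (32 * (B + GG f 1 / 2 + 1 / 8))
  have hD : B ≤ ∑ k ∈ Finset.range (J + 1), (GG f (2 ^ (k + 1)) - GG f (2 ^ k)) / 2 ^ (k + 2) := by
    have h1 := abel (fun k => GG f (2 ^ k)) (J + 1)
    simp only [pow_zero] at h1
    rw [h1]
    have h2 : 0 ≤ GG f (2 ^ (J + 1)) / 2 ^ (J + 1 + 1) :=
      div_nonneg (gg_nonneg _ _) (by positivity)
    have h3 : ∑ k ∈ Finset.range J, GG f (2 ^ (k + 1)) / 2 ^ (k + 1 + 2) ≤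
        ∑ k ∈ Finset.range (J + 1), GG f (2 ^ k) / 2 ^ (k + 2) := by
      rw [Finset.sum_range_succ']
      have h0 : 0 ≤ GG f (2 ^ 0) / 2 ^ (0 + 2) := div_nonneg (gg_nonneg _ _) (by positivity)
      linarith
    have h4 : ∑ k ∈ Finset.range J, ((f (2 ^ k) : ℝ) / 2 ^ k / 32 - (1 / 2) ^ k / 16) ≤
        ∑ k ∈ Finset.range J, GG f (2 ^ (k + 1)) / 2 ^ (k + 1 + 2) := by
      refine Finset.sum_le_sum fun k _ => ?_
      unfold GG
      have h5 : 2 ^ (k + 1) / 2 = 2 ^ k := by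
        rw [pow_succ, Nat.mul_div_cancel _ (by norm_num)]
      rw [h5]
      have h6 : (f (2 ^ k) : ℝ) - 2 ≤ ((f (2 ^ k) - 2 : ℕ) : ℝ) := by
        have h7 : f (2 ^ k) ≤ (f (2 ^ k) - 2) + 2 := by omega
        have h8 : (f (2 ^ k) : ℝ) ≤ ((f (2 ^ k) - 2 : ℕ) : ℝ) + 2 := by exact_mod_cast h7
        linarith
      have h9 : (2 : ℝ) ^ (k + 1 + 2) = 2 ^ k * 8 := by
        rw [pow_succ, pow_succ, pow_succ]
        ring
      rw [h9, one_div, inv_pow]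
      have h10 : (0 : ℝ) < 2 ^ k := by positivity
      have h11 : (f (2 ^ k) : ℝ) / 2 ^ k / 32 - (2 ^ k : ℝ)⁻¹ / 16 =
          ((f (2 ^ k) : ℝ) - 2) / 4 / (2 ^ k * 8) := by
        field_simp
        ring
      rw [h11]
      gcongr
    rw [Finset.sum_sub_distrib, ← Finset.sum_div, ← Finset.sum_div] at h4
    have h12 : ∑ k ∈ Finset.range J, (1 / 2 : ℝ) ^ k ≤ 2 := by
      rw [geom_sum_eq (by norm_num)]
      have h13 : (0 : ℝ) ≤ (1 / 2) ^ J := by positivity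
      rw [div_le_iff_of_neg (by norm_num)]
      linarith
    linarith
  filter_upwards [eventually_ge_atTop (2 ^ (J + 1 + 1))] with m hm
  have h1 := lam_lower f hf (J + 1) m hm
  have hm0 : (0 : ℝ) < m := by
    have : 0 < m := lt_of_lt_of_le (by positivity) hm
    exact_mod_cast this
  rw [le_div_iff₀ hm0]
  exact (mul_le_mul_of_nonneg_right hD hm0.le).trans h1

end Pool.Agent.Helper59.SH
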