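import Pool.Agent.Helper59.SH.Defs

/-!
# SH-04  The period doubling sequence has no period

Proof. Let first `m > 0`, `m = 2^k o`, `o` odd. Choose `u ∈ {1, 3}` with `u + o ≡ 2 mod 4` and `M = 2^(k+2)`. For each `c` there is
`s < M` with `c + s ≡ 2^k u mod 2^(k+2)` (`Int.emod`). Then `c + s = 2^k (u + 4 w)` has 2-adic valuation exactly `k`, and
`c + s + m = 2^k (u + 4 w + o) = 2^(k+1) * odd` has valuation `k + 1`; the parities differ.
For `m < 0` apply the statement for `-m` with `c + m` in the place of `c`: `s` with `pd (c+m+s) ≠ pd (c+m+s-m)`.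
(`padicValInt` of `2^k * w`, `w` odd: `padicValInt.mul`, `padicValInt.pow`... or `padicValInt_dvd_iff`.)
-/

set_option autoImplicit false

open Filter Topology

namespace Pool.Agent.Helper59.SH

private lemma pv (k : ℕ) (w : ℤ) (hw : Odd w) : padicValInt 2 (2 ^ k * w) = k := by
  have hw0 : w.natAbs ≠ 0 := by
    intro h
    rw [Int.natAbs_eq_zero] at h
    subst h
    exact absurd hw (by decide)
  have h2 : ¬ 2 ∣ w.natAbs := by
    intro h
    have : Odd w.natAbs := Int.natAbs_odd.mpr hw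
    rw [← Nat.not_even_iff_odd] at this
    exact this (even_iff_two_dvd.mpr h)
  unfold padicValInt
  rw [Int.natAbs_mul, Int.natAbs_pow]
  have e : (2 : ℤ).natAbs = 2 := rfl
  rw [e, padicValNat.mul (by positivity) hw0, padicValNat.prime_pow,
    padicValNat.eq_zero_of_not_dvd h2, add_zero]

private lemma decomp (m : ℤ) (hm : m ≠ 0) : ∃ (k : ℕ) (o : ℤ), Odd o ∧ m = 2 ^ k * o := by
  obtain ⟨k, o, ho, h⟩ := Nat.exists_eq_two_pow_mul_odd (n := m.natAbs) (by simpa using hm)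
  rcases Int.natAbs_eq m with h1 | h1
  · refine ⟨k, (o : ℤ), by exact_mod_cast ho, ?_⟩
    rw [h1, h]; push_cast; ring
  · refine ⟨k, -(o : ℤ), ?_, ?_⟩
    · rw [odd_neg]; exact_mod_cast ho
    · rw [h1, h]; push_cast; ring

theorem pd_aperiodic (m : ℤ) (hm : m ≠ 0) :
    ∃ M : ℕ, ∀ c : ℤ, ∃ s : ℕ, s < M ∧ pd (c + s) ≠ pd (c + s + m) := by
  obtain ⟨k, o, ho, rfl⟩ := decomp m hm
  obtain ⟨u, hu, t, ht⟩ : ∃ u : ℤ, Odd u ∧ ∃ t : ℤ, u + o = 2 * (1 + 2 * t) := by
    have h4 : o % 4 = 1 ∨ o % 4 = 3 := by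
      obtain ⟨r, hr⟩ := ho
      omega
    rcases h4 with h | h
    · exact ⟨1, by decide, o / 4, by omega⟩
    · exact ⟨3, by decide, o / 4 + 1, by omega⟩
  refine ⟨2 ^ (k + 2), fun c => ?_⟩
  have hpos : (0 : ℤ) < 2 ^ (k + 2) := by positivity
  refine ⟨((2 ^ k * u - c) % 2 ^ (k + 2)).toNat, ?_, ?_⟩
  · have h1 := Int.emod_lt_of_pos (2 ^ k * u - c) hpos
    have h0 := Int.emod_nonneg (2 ^ k * u - c) hpos.ne'
    zify
    rw [Int.toNat_of_nonneg h0]
    exact h1
  · have h0 := Int.emod_nonneg (2 ^ k * u - c) hpos.ne'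
    rw [Int.toNat_of_nonneg h0]
    have he : c + (2 ^ k * u - c) % 2 ^ (k + 2)
        = 2 ^ k * (u - 4 * ((2 ^ k * u - c) / 2 ^ (k + 2))) := by
      rw [Int.emod_def]
      ring
    have he2 : c + (2 ^ k * u - c) % 2 ^ (k + 2) + 2 ^ k * o
        = 2 ^ (k + 1) * (1 + 2 * (t - ((2 ^ k * u - c) / 2 ^ (k + 2)))) := by
      rw [he]
      have : o = 2 * (1 + 2 * t) - u := by linarith
      rw [this]
      ring
    rw [he2, he]
    unfold pd
    rw [pv, pv]
    · rw [ne_eq, decide_eq_decide]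
      intro h
      have := @Nat.odd_add_one k
      tauto
    · exact ⟨t - ((2 ^ k * u - c) / 2 ^ (k + 2)), by ring⟩
    · obtain ⟨r, hr⟩ := hu
      exact ⟨r - 2 * ((2 ^ k * u - c) / 2 ^ (k + 2)), by rw [hr]; ring⟩

end Pool.Agent.Helper59.SH
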