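import Pool.Agent.Helper59.SH.LamIneq
import Pool.Agent.Helper59.SH.LamLim

/-!
# SH-03  The counting function φ

Proof. `φ l = Nat.findGreatest (fun m => Lam f m ≤ l) l` (classical decidability). As `m ≤ Lam f m`:
(*) `Lam f m ≤ l → m ≤ φ l`, and `Lam f (φ l) ≤ l` (`Lam f 0 = 0`). `zero`, `pos` (`Lam f 1 = 1`), `le`, `mono` are clear.
The three inequalities: let `i = φ s`, `j = φ t` (`j = 0` resp. `i = 0` in `right`, `left`); if `i + j ≥ 1` then
`(i+j+1)/2 ≤ max i j ≤ max s t ≤ n`, so `GG f (i+j+1) ≤ (f n - 2 : ℕ)/4`, and if `i + j = 0` then `GG f 1 = (f 0 - 2)/4`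
with `0 ≤ n`, the same bound. By `lam_add` and `Lam f (φ s) ≤ s` etc.:
`Lam f (i+j+1) ≤ s + t + 1 + (f n - 2)/4`, and `1 + (f n - 2 : ℕ)/4 ≤ k` (`both`), `≤ k/2 + 1` (`right`), `≤ k - k/2` (`left`,
real numbers) since `1 ≤ f n ≤ k`. Conclude by (*).
`small`: otherwise there is `ε > 0` with `φ l ≥ ε l` for arbitrarily large `l`; then `φ l → ∞` along these `l` and
`l ≥ Lam f (φ l) ≥ (2/ε) φ l ≥ 2 l` for large such `l` by `lam_div`, a contradiction.
-/

set_option autoImplicit false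

open Filter Topology

namespace Pool.Agent.Helper59.SH

theorem exists_phi (f : ℕ → ℕ) (hf : Monotone f) (h1 : ∀ n, 1 ≤ f n)
    (hdiv : ∑' k : ℕ, (f (2 ^ k) : ENNReal) / 2 ^ k = ⊤) : ∃ φ : ℕ → ℕ, IsPhi f φ := by
  classical
  obtain ⟨φ, hφ⟩ : ∃ φ : ℕ → ℕ, ∀ l, φ l = Nat.findGreatest (fun m => Lam f m ≤ l) l :=
    ⟨_, fun l => rfl⟩
  have star : ∀ (l m : ℕ), Lam f m ≤ l → m ≤ φ l := by
    intro l m h
    rw [hφ]
    refine Nat.le_findGreatest ?_ h
    have h2 := (le_lam f hf m).trans h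
    exact_mod_cast h2
  have spec : ∀ l : ℕ, Lam f (φ l) ≤ l := by
    intro l
    have h2 : Lam f 0 ≤ (l : ℝ) := by
      rw [lam_zero]
      exact Nat.cast_nonneg l
    have h3 := Nat.findGreatest_spec (P := fun m => Lam f m ≤ (l : ℝ)) (Nat.zero_le l) h2
    rw [hφ]
    exact h3
  have hle : ∀ l, φ l ≤ l := fun l => by
    rw [hφ]
    exact Nat.findGreatest_le l
  have hzero : φ 0 = 0 := Nat.le_zero.1 (hle 0)
  have hGG : ∀ (n i j : ℕ), i ≤ n → j ≤ n → GG f (i + j + 1) ≤ ((f n - 2 : ℕ) : ℝ) / 4 := by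
    intro n i j hi hj
    unfold GG
    have h2 : (i + j + 1) / 2 ≤ n := by omega
    have h3 : ((f ((i + j + 1) / 2) - 2 : ℕ) : ℝ) ≤ ((f n - 2 : ℕ) : ℝ) := by
      exact_mod_cast Nat.sub_le_sub_right (hf h2) 2
    linarith
  have key : ∀ (n s t u : ℕ), s ≤ n → t ≤ n → 4 * (s + t + 1) + (f n - 2) ≤ 4 * u →
      φ s + φ t + 1 ≤ φ u := by
    intro n s t u hs ht hu
    refine star _ _ ?_
    have h2 := lam_add f hf (φ s) (φ t)
    have h3 := hGG n (φ s) (φ t) ((hle s).trans hs) ((hle t).trans ht)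
    have h4 := spec s
    have h5 := spec t
    have h6 : ((4 * (s + t + 1) + (f n - 2) : ℕ) : ℝ) ≤ ((4 * u : ℕ) : ℝ) := by exact_mod_cast hu
    rw [Nat.cast_add, Nat.cast_mul, Nat.cast_mul, Nat.cast_add, Nat.cast_add] at h6
    norm_num at h6
    linarith
  refine ⟨φ, ⟨hzero, fun l hl => star _ _ ?_, hle, fun a b hab => star _ _ ?_, ?_, ?_, ?_, ?_⟩⟩
  · rw [lam_one]
    exact_mod_cast hl
  · refine (spec a).trans ?_
    exact_mod_cast hab
  · intro n k s hk hs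
    have h2 := h1 n
    have h3 := key n s 0 (s + k / 2 + 1) hs (Nat.zero_le _) (by omega)
    rw [hzero] at h3
    exact h3
  · intro n k t hk ht1 ht
    have h2 := h1 n
    have h3 := key n t 0 (t + (k - k / 2)) ht (Nat.zero_le _) (by omega)
    rw [hzero] at h3
    exact h3
  · intro n k s t hk hs1 hs ht1 ht
    have h2 := h1 n
    exact key n s t (s + t + k) hs ht (by omega)
  · rw [Metric.tendsto_atTop]
    intro ε hε
    have h2 := (tendsto_atTop.1 (lam_div f hf hdiv)) (2 / ε)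
    obtain ⟨N, hN⟩ := eventually_atTop.1 h2
    obtain ⟨L, hL⟩ := exists_nat_gt (2 * ((N : ℝ) + 1) / ε)
    refine ⟨L + 1, fun l hl => ?_⟩
    have hl1 : (L : ℝ) + 1 ≤ l := by exact_mod_cast hl
    have hL0 : (0 : ℝ) ≤ L := Nat.cast_nonneg L
    have hl0 : (0 : ℝ) < l := by linarith
    have hφ0 : (0 : ℝ) ≤ φ l := Nat.cast_nonneg _
    rw [Real.dist_eq, sub_zero, abs_of_nonneg (by positivity), div_lt_iff₀ hl0]
    rw [div_lt_iff₀ hε] at hL
    by_cases hm : N + 1 ≤ φ l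
    · have h3 := hN (φ l) (by omega)
      have hm0 : (0 : ℝ) < φ l := by exact_mod_cast (by omega : 0 < φ l)
      rw [le_div_iff₀ hm0] at h3
      have h4 := h3.trans (spec l)
      rw [div_mul_eq_mul_div, div_le_iff₀ hε] at h4
      nlinarith
    · have h3 : (φ l : ℝ) ≤ N + 1 := by exact_mod_cast (by omega : φ l ≤ N + 1)
      nlinarith

end Pool.Agent.Helper59.SH
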